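import Pool.Agent.H44.LP.Defs

/-!
# [H44 LP Ca] Cauchy estimate at the boundary

* `ca_lim`: `f` is continuous at `z0` within `closedBall 0 1 ∩ Ω`. Given `ε`, take `δ > 0` with `ball z0 δ ⊆ Ω` and `‖f x - f z0‖ ≤ ε / 4` for `x ∈ closedBall 0 1 ∩ ball z0 δ`. For `z ∈ ball 0 1`, `‖z - z0‖ < δ / 2`,
  `r = (1 - ‖z‖) / 2` (`1 - ‖z‖ ≤ ‖z0 - z‖ < δ / 2`): `ball z r ⊆ ball 0 1 ∩ ball z0 δ`, so `‖f x - f z‖ ≤ ε / 2` there and by Cauchy (Schwarz, as in H44/SP/Hd.lean of helper60) `‖fderiv ℂ f z‖ ≤ (ε / 2) / r`, i.e.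
  `(1 - ‖z‖) * ‖fderiv ℂ f z‖ ≤ ε`.
-/

set_option autoImplicit false

namespace Pool.Agent.H44.LP

open MeasureTheory Metric Pool.Agent.H74.CB Pool.Agent.H44.SP Filter Topology

variable {n : ℕ}

theorem ca_lim (Ω : Set (V n)) (hΩ : IsOpen Ω) (f : V n → ℂ)
    (hf : ContinuousOn f (closedBall (0 : V n) 1 ∩ Ω)) (hf' : DifferentiableOn ℂ f (ball (0 : V n) 1))
    (z0 : V n) (hz0 : ‖z0‖ = 1) (hz1 : z0 ∈ Ω) :
    Tendsto (fun z => (1 - ‖z‖) * ‖fderiv ℂ f z‖) (𝓝[ball (0 : V n) 1] z0) (𝓝 0) := by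
  rw [Metric.tendsto_nhdsWithin_nhds]
  intro ε hε
  have hz0m : z0 ∈ closedBall (0 : V n) 1 ∩ Ω := ⟨by rw [mem_closedBall_zero_iff]; exact hz0.le, hz1⟩
  obtain ⟨δ1, hδ1, h1⟩ := Metric.continuousWithinAt_iff.1 (hf z0 hz0m) (ε / 8) (by positivity)
  obtain ⟨δ2, hδ2, h2⟩ := Metric.isOpen_iff.1 hΩ z0 hz1
  refine ⟨min δ1 δ2 / 2, half_pos (lt_min hδ1 hδ2), ?_⟩
  intro z hz hzz
  have hz' : ‖z‖ < 1 := by simpa using hz
  have hd1 : dist z z0 < δ1 / 2 := lt_of_lt_of_le hzz (by linarith [min_le_left δ1 δ2])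
  have hd2 : dist z z0 < δ2 / 2 := lt_of_lt_of_le hzz (by linarith [min_le_right δ1 δ2])
  obtain ⟨r, hr0, hr⟩ : ∃ r : ℝ, 0 < r ∧ 1 - ‖z‖ = 2 * r := ⟨(1 - ‖z‖) / 2, by linarith, by ring⟩
  have hrd : 2 * r ≤ dist z z0 := by
    have h3 : ‖z0‖ - ‖z‖ ≤ ‖z0 - z‖ := norm_sub_norm_le z0 z
    rw [hz0] at h3
    rw [dist_comm, dist_eq_norm]
    linarith
  have hin : ∀ x ∈ ball z r, x ∈ ball (0 : V n) 1 := by
    intro x hx
    rw [mem_ball, dist_eq_norm] at hx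
    rw [mem_ball_zero_iff]
    have h3 : ‖x‖ ≤ ‖x - z‖ + ‖z‖ := by simpa using norm_add_le (x - z) z
    linarith
  have hval : ∀ x ∈ ball z r, dist (f x) (f z0) < ε / 8 := by
    intro x hx
    have hx1 := hin x hx
    rw [mem_ball] at hx
    have h3 := dist_triangle x z z0
    refine h1 ⟨ball_subset_closedBall hx1, h2 ?_⟩ ?_
    · rw [mem_ball]
      linarith
    · linarith
  have hg : DifferentiableOn ℂ f (ball z r) := hf'.mono hin
  have hmaps : Set.MapsTo f (ball z r) (closedBall (f z) (ε / 4)) := by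
    intro x hx
    rw [mem_closedBall]
    have h3 := hval x hx
    have h4 := hval z (mem_ball_self hr0)
    have h5 := dist_triangle_right (f x) (f z) (f z0)
    linarith
  have h6 := Complex.norm_fderiv_le_div_of_mapsTo_ball hg hmaps hr0
  rw [Real.dist_eq, sub_zero, abs_of_nonneg (mul_nonneg (by linarith) (norm_nonneg _)), hr]
  calc 2 * r * ‖fderiv ℂ f z‖ ≤ 2 * r * (ε / 4 / r) := mul_le_mul_of_nonneg_left h6 (by linarith)
    _ = ε / 2 := by field_simp; norm_num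
    _ < ε := by linarith

end Pool.Agent.H44.LP
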