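import Pool.Agent.H44.SP.Fin

/-!
# [H44 LP Defs] MP_845814_an, the local form of LipschitzPairs

THEOREM. `n ≥ 2`, `Ω ⊆ ℂ^n` open, `f, g` holomorphic in the ball, continuous on `closedBall 0 1 ∩ Ω`, with complex tangential derivatives which extend
continuously to `closedBall 0 1 ∩ Ω`. If `|f| = |g|` on a subset of `sphere ∩ Ω` of positive measure, then `f = c g` in the ball.
-/

set_option autoImplicit false

namespace Pool.Agent.H44.LP

open MeasureTheory Metric Pool.Agent.H74.CB Pool.Agent.H44.SP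

variable {n : ℕ}

/-- the complex tangential derivative extends continuously to `closedBall 0 1 ∩ Ω` -/
def TgL (Ω : Set (V n)) (i j : Fin n) (f tf : V n → ℂ) : Prop :=
  ContinuousOn tf (closedBall (0 : V n) 1 ∩ Ω) ∧ ∀ z ∈ ball (0 : V n) 1 ∩ Ω, tf z = fderiv ℂ f z (jj i j z)

/-- the orthogonal projection on `ℂ v`, `‖v‖ = 1` -/
noncomputable def pj (v : V n) (z : V n) : V n := (inner ℂ v z : ℂ) • v

/-- the disc `l ↦ z + (l - 1) P z`, `P = pj v` -/
noncomputable def rh (v : V n) (l : ℂ) (z : V n) : V n := z + (l - 1) • pj v z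

end Pool.Agent.H44.LP
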