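import Pool.Agent.H44.LP.CvL
import Pool.Agent.H44.LP.Ca

/-!
# [H44 LP DiL] The discs
-/

set_option autoImplicit false

namespace Pool.Agent.H44.LP

open MeasureTheory Metric Pool.Agent.H74.CB Pool.Agent.H44.SP Filter Topology

variable {n : ℕ}

theorem inner_vv (v : V n) (hv : ‖v‖ = 1) : (inner ℂ v v : ℂ) = 1 := by
  rw [inner_self_eq_norm_sq_to_K, hv]; simp

theorem inner_v_rh (v : V n) (hv : ‖v‖ = 1) (l : ℂ) (z : V n) :
    (inner ℂ v (rh v l z) : ℂ) = l * inner ℂ v z := by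
  rw [rh, pj, inner_add_right, inner_smul_right, inner_smul_right, inner_vv v hv]
  ring

theorem inner_u_rh (v u : V n) (huv : (inner ℂ u v : ℂ) = 0) (l : ℂ) (z : V n) :
    (inner ℂ u (rh v l z) : ℂ) = inner ℂ u z := by
  rw [rh, pj, inner_add_right, inner_smul_right, inner_smul_right, huv]
  ring

theorem rh_decomp (v : V n) (l : ℂ) (z : V n) : rh v l z = (z - pj v z) + l • pj v z := by
  rw [rh, sub_smul, one_smul]; abel

theorem norm_rh_sq (v : V n) (hv : ‖v‖ = 1) (l : ℂ) (z : V n) :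
    ‖rh v l z‖ ^ 2 = ‖z‖ ^ 2 + (‖l‖ ^ 2 - 1) * ‖(inner ℂ v z : ℂ)‖ ^ 2 := by
  have hp : ∀ m : ℂ, ‖(z - pj v z) + m • pj v z‖ ^ 2 = ‖z - pj v z‖ ^ 2 + ‖m‖ ^ 2 * ‖(inner ℂ v z : ℂ)‖ ^ 2 := by
    intro m
    have h0 : (inner ℂ v (z - pj v z) : ℂ) = 0 := by
      rw [pj, inner_sub_right, inner_smul_right, inner_vv v hv, mul_one, sub_self]
    have h0' : (inner ℂ (z - pj v z) v : ℂ) = 0 := by
      rw [← inner_conj_symm, h0, map_zero]
    have h1 : (inner ℂ (z - pj v z) (m • pj v z) : ℂ) = 0 := by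
      rw [pj, inner_smul_right, inner_smul_right]
      have : (inner ℂ (z - (inner ℂ v z : ℂ) • v) v : ℂ) = 0 := h0'
      rw [this]; ring
    have h2 := norm_add_sq_eq_norm_sq_add_norm_sq_of_inner_eq_zero _ _ h1
    have h3 : ‖m • pj v z‖ = ‖m‖ * ‖(inner ℂ v z : ℂ)‖ := by
      rw [pj, norm_smul, norm_smul, hv, mul_one]
    rw [h3] at h2
    calc ‖(z - pj v z) + m • pj v z‖ ^ 2 = ‖(z - pj v z) + m • pj v z‖ * ‖(z - pj v z) + m • pj v z‖ := sq _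
      _ = _ := by rw [h2]; ring
  rw [rh_decomp, hp l]
  have h1 := hp 1
  rw [one_smul, sub_add_cancel, norm_one] at h1
  rw [h1]; ring

theorem rh_one (v z : V n) : rh v 1 z = z := by rw [rh, sub_self, zero_smul, add_zero]

theorem rh_rh (v : V n) (hv : ‖v‖ = 1) (l m : ℂ) (z : V n) : rh v l (rh v m z) = rh v (l * m) z := by
  have h1 : pj v (rh v m z) = m • pj v z := by
    rw [pj, inner_v_rh v hv, pj, mul_smul]
  rw [rh, h1, rh, rh, smul_smul, add_assoc, ← add_smul]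
  congr 2; ring

theorem rh_line (v : V n) (l : ℂ) (z : V n) :
    rh v l z = (z - pj v z) + l • ((inner ℂ v z : ℂ) • v) := by rw [rh_decomp]; rfl

theorem rh_add (v : V n) (l : ℂ) (x y : V n) : rh v l (x + y) = rh v l x + rh v l y := by
  simp only [rh, pj, inner_add_right, add_smul, smul_add]; abel

theorem rh_smul (v : V n) (l : ℂ) (r : ℝ) (x : V n) : rh v l (r • x) = r • rh v l x := by
  have h1 : pj v (r • x) = r • pj v x := by
    rw [pj, pj, inner_smul_right_eq_smul, smul_assoc]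
  rw [rh, rh, h1, smul_add, smul_comm (l - 1) r]

theorem rh_cont (v : V n) : Continuous fun p : ℂ × V n => rh v p.1 p.2 := by
  unfold rh pj
  have h1 : Continuous fun p : ℂ × V n => (inner ℂ v p.2 : ℂ) := by fun_prop
  fun_prop

theorem rh_cont_l (v z : V n) : Continuous fun l : ℂ => rh v l z := by
  unfold rh
  fun_prop

/-- the rotations in the direction of `v` -/
noncomputable def rv (v : V n) (θ : ℝ) (z : V n) : V n := rh v (Complex.exp ((θ : ℂ) * Complex.I)) z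

theorem rv_cont (v : V n) : Continuous fun p : ℝ × V n => rv v p.1 p.2 := by
  unfold rv rh pj
  have h1 : Continuous fun p : ℝ × V n => (inner ℂ v p.2 : ℂ) := by fun_prop
  fun_prop

theorem rv_norm (v : V n) (hv : ‖v‖ = 1) (θ : ℝ) (z : V n) : ‖rv v θ z‖ = ‖z‖ := by
  have h := norm_rh_sq v hv (Complex.exp ((θ : ℂ) * Complex.I)) z
  rw [Complex.norm_exp_ofReal_mul_I] at h
  have h2 : ‖rv v θ z‖ ^ 2 = ‖z‖ ^ 2 := by rw [rv, h]; ring
  exact (sq_eq_sq₀ (norm_nonneg _) (norm_nonneg _)).mp h2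

theorem rv_mp (v : V n) (hv : ‖v‖ = 1) (θ : ℝ) :
    MeasurePreserving (rv v θ : V n → V n) (volume : Measure (V n)) volume :=
  mp_of_isom _ (rh_add v _) (rh_smul v _) (rv_norm v hv θ)

theorem un_rv (v : V n) (hv : ‖v‖ = 1) (θ : ℝ) (z : V n) : un (rv v θ z) = rv v θ (un z) := by
  rw [un, un, rv_norm v hv, rv, rv, rh_smul]

/-- the Wronskian in the direction `w` -/
noncomputable def dw (f g : V n → ℂ) (w z : V n) : ℂ := g z * fderiv ℂ f z w - f z * fderiv ℂ g z w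

/-- the field `J` for two vectors -/
noncomputable def jU (u v z : V n) : V n :=
  ((starRingEnd ℂ) (inner ℂ u z : ℂ)) • v - ((starRingEnd ℂ) (inner ℂ v z : ℂ)) • u

/-- the derivative along `jU u v` extends continuously to `closedBall 0 1 ∩ Ω` -/
def TgU (Ω : Set (V n)) (u v : V n) (f tf : V n → ℂ) : Prop :=
  ContinuousOn tf (closedBall (0 : V n) 1 ∩ Ω) ∧ ∀ z ∈ ball (0 : V n) 1 ∩ Ω, tf z = fderiv ℂ f z (jU u v z)

theorem cont_dw (f g : V n → ℂ) (hf' : DifferentiableOn ℂ f (ball (0 : V n) 1))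
    (hg' : DifferentiableOn ℂ g (ball (0 : V n) 1)) (w : V n) : ContinuousOn (dw f g w) (ball (0 : V n) 1) := by
  unfold dw
  exact (hg'.continuousOn.mul ((cont_fderiv f hf').clm_apply continuousOn_const)).sub
    (hf'.continuousOn.mul ((cont_fderiv g hg').clm_apply continuousOn_const))

theorem dw_lim (Ω : Set (V n)) (hΩ : IsOpen Ω) (f g : V n → ℂ)
    (hf : ContinuousOn f (closedBall (0 : V n) 1 ∩ Ω)) (hf' : DifferentiableOn ℂ f (ball (0 : V n) 1))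
    (hg : ContinuousOn g (closedBall (0 : V n) 1 ∩ Ω)) (hg' : DifferentiableOn ℂ g (ball (0 : V n) 1))
    (w z0 : V n) (hz0 : ‖z0‖ = 1) (hz1 : z0 ∈ Ω) :
    Tendsto (fun z => (1 - ‖z‖) * ‖dw f g w z‖) (𝓝[ball (0 : V n) 1] z0) (𝓝 0) := by
  have h1 := ca_lim Ω hΩ f hf hf' z0 hz0 hz1
  have h2 := ca_lim Ω hΩ g hg hg' z0 hz0 hz1
  have hle : 𝓝[ball (0 : V n) 1] z0 ≤ 𝓝[closedBall (0 : V n) 1 ∩ Ω] z0 := by
    have : closedBall (0 : V n) 1 ∩ Ω ∈ 𝓝[ball (0 : V n) 1] z0 := by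
      filter_upwards [self_mem_nhdsWithin, mem_nhdsWithin_of_mem_nhds (hΩ.mem_nhds hz1)] with z hz hz'
      exact ⟨ball_subset_closedBall hz, hz'⟩
    exact nhdsWithin_le_iff.mpr this
  have hm : z0 ∈ closedBall (0 : V n) 1 ∩ Ω := ⟨by rw [mem_closedBall_zero_iff, hz0], hz1⟩
  have h3 : Tendsto (fun z => ‖f z‖) (𝓝[ball (0 : V n) 1] z0) (𝓝 ‖f z0‖) := ((hf z0 hm).tendsto.mono_left hle).norm
  have h4 : Tendsto (fun z => ‖g z‖) (𝓝[ball (0 : V n) 1] z0) (𝓝 ‖g z0‖) := ((hg z0 hm).tendsto.mono_left hle).norm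
  have h5 := ((h4.mul h1).add (h3.mul h2)).mul_const ‖w‖
  rw [mul_zero, mul_zero, add_zero, zero_mul] at h5
  refine squeeze_zero' ?_ ?_ h5
  · filter_upwards [self_mem_nhdsWithin] with z hz
    have : ‖z‖ < 1 := mem_ball_zero_iff.mp hz
    exact mul_nonneg (by linarith) (norm_nonneg _)
  · filter_upwards [self_mem_nhdsWithin] with z hz
    have hz1 : ‖z‖ < 1 := mem_ball_zero_iff.mp hz
    have e1 : ‖dw f g w z‖ ≤ (‖g z‖ * ‖fderiv ℂ f z‖ + ‖f z‖ * ‖fderiv ℂ g z‖) * ‖w‖ := by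
      rw [dw]
      refine (norm_sub_le _ _).trans ?_
      rw [norm_mul, norm_mul]
      have a1 := (fderiv ℂ f z).le_opNorm w
      have a2 := (fderiv ℂ g z).le_opNorm w
      have a3 := mul_le_mul_of_nonneg_left a1 (norm_nonneg (g z))
      have a4 := mul_le_mul_of_nonneg_left a2 (norm_nonneg (f z))
      linarith
    have e2 := mul_le_mul_of_nonneg_left e1 (show 0 ≤ 1 - ‖z‖ by linarith)
    linarith

theorem disc_eq (Ω : Set (V n)) (hΩ : IsOpen Ω) (f g : V n → ℂ)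
    (hf : ContinuousOn f (closedBall (0 : V n) 1 ∩ Ω)) (hf' : DifferentiableOn ℂ f (ball (0 : V n) 1))
    (hg : ContinuousOn g (closedBall (0 : V n) 1 ∩ Ω)) (hg' : DifferentiableOn ℂ g (ball (0 : V n) 1))
    (v u : V n) (hv : ‖v‖ = 1) (huv : (inner ℂ u v : ℂ) = 0) (tf tg : V n → ℂ)
    (hTf : TgU Ω u v f tf) (hTg : TgU Ω u v g tg) (ζ : V n) (hζ : ‖ζ‖ = 1) (hq : (inner ℂ v ζ : ℂ) ≠ 0)
    (hin : ∀ l : ℂ, ‖l‖ ≤ 1 → rh v l ζ ∈ Ω)
    (hpos : volume {θ : ℝ | θ ∈ Set.Ioo 0 (2 * Real.pi) ∧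
      g (rv v θ ζ) * tf (rv v θ ζ) - f (rv v θ ζ) * tg (rv v θ ζ) = 0} ≠ 0) :
    ∀ l : ℂ, ‖l‖ < 1 → l * (starRingEnd ℂ) (inner ℂ u ζ : ℂ) * dw f g v (rh v l ζ) -
      (starRingEnd ℂ) (inner ℂ v ζ : ℂ) * dw f g u (rh v l ζ) = 0 := by
  obtain ⟨q, hqd⟩ : ∃ q : ℂ, q = inner ℂ v ζ := ⟨_, rfl⟩
  obtain ⟨c, hcd⟩ : ∃ c : ℂ, c = inner ℂ u ζ := ⟨_, rfl⟩
  rw [← hqd, ← hcd]
  rw [← hqd] at hq
  have hq0 : 0 < ‖q‖ := norm_pos_iff.mpr hq
  have hnz : ∀ l : ℂ, ‖rh v l ζ‖ ^ 2 = 1 + (‖l‖ ^ 2 - 1) * ‖q‖ ^ 2 := by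
    intro l; rw [norm_rh_sq v hv, hζ, ← hqd, one_pow]
  have hzb : ∀ l : ℂ, ‖l‖ < 1 → rh v l ζ ∈ ball (0 : V n) 1 := by
    intro l hl
    rw [mem_ball_zero_iff]
    have h1 := hnz l
    have h2 : ‖l‖ ^ 2 < 1 := pow_lt_one₀ (norm_nonneg _) hl two_ne_zero
    have h3 : 0 < ‖q‖ ^ 2 := by positivity
    have h4 : ‖rh v l ζ‖ ^ 2 < 1 := by nlinarith
    exact (sq_lt_one_iff₀ (norm_nonneg _)).mp h4
  have hzc : ∀ l : ℂ, ‖l‖ ≤ 1 → rh v l ζ ∈ closedBall (0 : V n) 1 := by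
    intro l hl
    rw [mem_closedBall_zero_iff]
    have h1 := hnz l
    have h2 : ‖l‖ ^ 2 ≤ 1 := pow_le_one₀ (norm_nonneg _) hl
    have h3 : 0 ≤ ‖q‖ ^ 2 := by positivity
    have h4 : ‖rh v l ζ‖ ^ 2 ≤ 1 := by nlinarith
    exact (sq_le_one_iff₀ (norm_nonneg _)).mp h4
  have hcz : Continuous fun l : ℂ => rh v l ζ := rh_cont_l v ζ
  -- the holomorphic function
  have hF : DifferentiableOn ℂ (fun l : ℂ => l * (starRingEnd ℂ) c * dw f g v (rh v l ζ) -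
      (starRingEnd ℂ) q * dw f g u (rh v l ζ)) (ball (0 : ℂ) 1) := by
    have hU : ball (0 : ℂ) 1 ⊆ {τ : ℂ | (ζ - pj v ζ) + τ • ((inner ℂ v ζ : ℂ) • v) ∈ ball (0 : V n) 1} := by
      intro l hl
      show (ζ - pj v ζ) + l • ((inner ℂ v ζ : ℂ) • v) ∈ ball (0 : V n) 1
      rw [← rh_line]
      exact hzb l (mem_ball_zero_iff.mp hl)
    have q1 := (hol_fderiv f hf' (ζ - pj v ζ) ((inner ℂ v ζ : ℂ) • v) v).mono hU
    have q2 := (hol_fderiv g hg' (ζ - pj v ζ) ((inner ℂ v ζ : ℂ) • v) v).mono hU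
    have q3 := (hol_fderiv f hf' (ζ - pj v ζ) ((inner ℂ v ζ : ℂ) • v) u).mono hU
    have q4 := (hol_fderiv g hg' (ζ - pj v ζ) ((inner ℂ v ζ : ℂ) • v) u).mono hU
    have q5 := (diff_line f hf' (ζ - pj v ζ) ((inner ℂ v ζ : ℂ) • v)).mono hU
    have q6 := (diff_line g hg' (ζ - pj v ζ) ((inner ℂ v ζ : ℂ) • v)).mono hU
    simp only [← rh_line] at q1 q2 q3 q4 q5 q6
    have q7 : DifferentiableOn ℂ (fun l : ℂ => l * (starRingEnd ℂ) c) (ball (0 : ℂ) 1) := by fun_prop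
    exact (q7.mul ((q6.mul q1).sub (q5.mul q2))).sub (((q6.mul q3).sub (q5.mul q4)).const_mul _)
  -- the majorant
  have hΨ : ContinuousOn (fun z => g z * tf z - f z * tg z) (closedBall (0 : V n) 1 ∩ Ω) :=
    (hg.mul hTf.1).sub (hf.mul hTg.1)
  have hM1 : ContinuousOn (fun l : ℂ => ‖g (rh v l ζ) * tf (rh v l ζ) - f (rh v l ζ) * tg (rh v l ζ)‖)
      (closedBall (0 : ℂ) 1) := by
    refine (hΨ.comp hcz.continuousOn ?_).norm
    intro l hl
    have hl' := mem_closedBall_zero_iff.mp hl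
    exact ⟨hzc l hl', hin l hl'⟩
  have hM2 : ContinuousOn (fun l : ℂ => ‖q‖ * (1 - ‖l‖ ^ 2) * ‖dw f g u (rh v l ζ)‖) (closedBall (0 : ℂ) 1) := by
    intro l0 hl0
    have hl0' := mem_closedBall_zero_iff.mp hl0
    rcases lt_or_eq_of_le hl0' with h | h
    · refine ContinuousAt.continuousWithinAt ?_
      have h1 : ContinuousAt (dw f g u) (rh v l0 ζ) :=
        (cont_dw f g hf' hg' u).continuousAt (isOpen_ball.mem_nhds (hzb l0 h))
      have h2 : ContinuousAt (fun l : ℂ => dw f g u (rh v l ζ)) l0 :=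
        ContinuousAt.comp (g := dw f g u) (f := fun l : ℂ => rh v l ζ) h1 hcz.continuousAt
      have h3 : ContinuousAt (fun l : ℂ => ‖q‖ * (1 - ‖l‖ ^ 2)) l0 := by fun_prop
      exact h3.mul h2.norm
    · have hz0 : ‖rh v l0 ζ‖ = 1 := by
        have h1 := hnz l0
        rw [h] at h1
        have h2 : ‖rh v l0 ζ‖ ^ 2 = 1 := by rw [h1]; ring
        exact (pow_eq_one_iff_of_nonneg (norm_nonneg _) two_ne_zero).mp h2
      have hlim := dw_lim Ω hΩ f g hf hf' hg hg' u (rh v l0 ζ) hz0 (hin l0 hl0')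
      have hval : ‖q‖ * (1 - ‖l0‖ ^ 2) * ‖dw f g u (rh v l0 ζ)‖ = 0 := by rw [h]; ring
      rw [ContinuousWithinAt, hval, Metric.tendsto_nhds]
      intro ε hε
      have h4 : ∀ᶠ z in 𝓝[ball (0 : V n) 1] (rh v l0 ζ), (1 - ‖z‖) * ‖dw f g u z‖ < ε * ‖q‖ / 2 :=
        hlim.eventually_lt_const (by positivity)
      rw [eventually_nhdsWithin_iff] at h4
      have h5 := (hcz.continuousAt (x := l0)).eventually h4
      filter_upwards [mem_nhdsWithin_of_mem_nhds h5, self_mem_nhdsWithin] with l h6 h7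
      have hl := mem_closedBall_zero_iff.mp h7
      rw [Real.dist_eq, sub_zero]
      have hnn : 0 ≤ 1 - ‖l‖ ^ 2 := by
        have : ‖l‖ ^ 2 ≤ 1 := pow_le_one₀ (norm_nonneg _) hl
        linarith
      rw [abs_of_nonneg (mul_nonneg (mul_nonneg hq0.le hnn) (norm_nonneg _))]
      rcases lt_or_eq_of_le hl with h8 | h8
      · have h9 := h6 (hzb l h8)
        have h10 := hnz l
        have h11 : ‖rh v l ζ‖ < 1 := mem_ball_zero_iff.mp (hzb l h8)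
        have h12 : (1 - ‖l‖ ^ 2) * ‖q‖ ^ 2 ≤ 2 * (1 - ‖rh v l ζ‖) := by nlinarith [norm_nonneg (rh v l ζ)]
        have h13 : ‖q‖ * (1 - ‖l‖ ^ 2) ≤ 2 * (1 - ‖rh v l ζ‖) / ‖q‖ := by
          rw [le_div_iff₀ hq0]; nlinarith
        calc ‖q‖ * (1 - ‖l‖ ^ 2) * ‖dw f g u (rh v l ζ)‖ ≤
            2 * (1 - ‖rh v l ζ‖) / ‖q‖ * ‖dw f g u (rh v l ζ)‖ := mul_le_mul_of_nonneg_right h13 (norm_nonneg _)
          _ = 2 / ‖q‖ * ((1 - ‖rh v l ζ‖) * ‖dw f g u (rh v l ζ)‖) := by ring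
          _ < 2 / ‖q‖ * (ε * ‖q‖ / 2) := mul_lt_mul_of_pos_left h9 (by positivity)
          _ = ε := by field_simp
      · rw [h8]; simpa using hε
  have hu := uniq _ hF (fun l : ℂ => ‖g (rh v l ζ) * tf (rh v l ζ) - f (rh v l ζ) * tg (rh v l ζ)‖ +
      ‖q‖ * (1 - ‖l‖ ^ 2) * ‖dw f g u (rh v l ζ)‖) (hM1.add hM2) (by
    intro l hl
    have hz : rh v l ζ ∈ ball (0 : V n) 1 ∩ Ω := ⟨hzb l hl, hin l hl.le⟩
    have e1 : g (rh v l ζ) * tf (rh v l ζ) - f (rh v l ζ) * tg (rh v l ζ) =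
        (starRingEnd ℂ) c * dw f g v (rh v l ζ) - (starRingEnd ℂ) (l * q) * dw f g u (rh v l ζ) := by
      rw [hTf.2 _ hz, hTg.2 _ hz, jU, inner_v_rh v hv, inner_u_rh v u huv, ← hqd, ← hcd, map_sub, map_smul, map_smul,
        map_sub, map_smul, map_smul, dw, dw]
      simp only [smul_eq_mul]
      ring
    have e2 : l * (starRingEnd ℂ) c * dw f g v (rh v l ζ) - (starRingEnd ℂ) q * dw f g u (rh v l ζ) =
        l * (g (rh v l ζ) * tf (rh v l ζ) - f (rh v l ζ) * tg (rh v l ζ)) -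
        (starRingEnd ℂ) q * (((1 - ‖l‖ ^ 2 : ℝ)) : ℂ) * dw f g u (rh v l ζ) := by
      rw [e1, map_mul]
      have e3 : (((1 - ‖l‖ ^ 2 : ℝ)) : ℂ) = 1 - l * (starRingEnd ℂ) l := by
        rw [Complex.mul_conj, Complex.normSq_eq_norm_sq]; push_cast; ring
      rw [e3]; ring
    have hnn : 0 ≤ 1 - ‖l‖ ^ 2 := by
      have : ‖l‖ ^ 2 ≤ 1 := pow_le_one₀ (norm_nonneg _) hl.le
      linarith
    have e4 : ‖l * (starRingEnd ℂ) c * dw f g v (rh v l ζ) - (starRingEnd ℂ) q * dw f g u (rh v l ζ)‖ ≤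
        ‖g (rh v l ζ) * tf (rh v l ζ) - f (rh v l ζ) * tg (rh v l ζ)‖ +
        ‖q‖ * (1 - ‖l‖ ^ 2) * ‖dw f g u (rh v l ζ)‖ := by
      rw [e2]
      refine (norm_sub_le _ _).trans (add_le_add ?_ ?_)
      · rw [norm_mul]
        exact mul_le_of_le_one_left (norm_nonneg _) hl.le
      · rw [norm_mul, norm_mul, RCLike.norm_conj, Complex.norm_real, Real.norm_eq_abs, abs_of_nonneg hnn]
    exact (mul_le_of_le_one_left (norm_nonneg _) hl.le).trans e4) (by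
    intro hnull
    apply hpos
    refine measure_mono_null ?_ hnull
    rintro θ ⟨hθ, h0⟩
    refine ⟨hθ, ?_⟩
    have h1 : g (rh v (Complex.exp ((θ : ℂ) * Complex.I)) ζ) * tf (rh v (Complex.exp ((θ : ℂ) * Complex.I)) ζ) -
        f (rh v (Complex.exp ((θ : ℂ) * Complex.I)) ζ) * tg (rh v (Complex.exp ((θ : ℂ) * Complex.I)) ζ) = 0 := h0
    show ‖g (rh v (Complex.exp ((θ : ℂ) * Complex.I)) ζ) * tf (rh v (Complex.exp ((θ : ℂ) * Complex.I)) ζ) -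
        f (rh v (Complex.exp ((θ : ℂ) * Complex.I)) ζ) * tg (rh v (Complex.exp ((θ : ℂ) * Complex.I)) ζ)‖ +
        ‖q‖ * (1 - ‖Complex.exp ((θ : ℂ) * Complex.I)‖ ^ 2) * _ = 0
    rw [h1, Complex.norm_exp_ofReal_mul_I]
    simp)
  intro l hl
  exact hu l (mem_ball_zero_iff.mpr hl)

end Pool.Agent.H44.LP
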