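import Pool.Agent.H44.LP.Defs

/-!
# [H44 LP LipL] Local form of `lip_ext` (see H44/SP/Lp.lean, proved by helper15)

The same `T k z = fderiv ℂ f (r k • z) (jj i j z)`. For `p ∈ closedBall 0 1 ∩ Ω` take `ε > 0` with `ball p (3 ε) ⊆ Ω`; for `z ∈ closedBall 0 1 ∩ ball p ε` and all `k ≥ k₀` (`δ k < ε`, `√(δ k) < ε`) all
points `r k • z + τ • w`, `|τ| ≤ √(δ (k+1)) / 2`, lie in `ball 0 1 ∩ ball p (3 ε)`, so the estimates of `Lp` hold and `T k` converges uniformly on `closedBall 0 1 ∩ ball p ε`. So the limit `tf`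
(`limUnder` or by choice, pointwise) exists on `closedBall 0 1 ∩ Ω`, `TendstoLocallyUniformlyOn`, hence continuous; on `ball 0 1 ∩ Ω` it is `fderiv ℂ f z (jj i j z)` by `cont_fderiv`.
-/

set_option autoImplicit false

namespace Pool.Agent.H44.LP

open MeasureTheory Metric Pool.Agent.H74.CB Pool.Agent.H44.SP

variable {n : ℕ}

/-- one dyadic step, local form -/
theorem lip_step_loc (Ω : Set (V n)) (i j : Fin n) (hij : i ≠ j) (f : V n → ℂ)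
    (hf' : DifferentiableOn ℂ f (ball (0 : V n) 1)) (a C : ℝ) (ha : 0 ≤ a)
    (hL : ∀ z ∈ ball (0 : V n) 1 ∩ Ω, ∀ w ∈ ball (0 : V n) 1 ∩ Ω, ‖f z - f w‖ ≤ C * ‖z - w‖ ^ a)
    (δ : ℝ) (hδ0 : 0 < δ) (hδ1 : δ ≤ 1 / 4) (z : V n) (hz : z ∈ closedBall (0 : V n) 1)
    (hO1 : ∀ τ : ℂ, ‖τ‖ ≤ Real.sqrt δ / 2 → ((1 - δ : ℝ) : ℂ) • z + τ • jj i j z ∈ Ω)
    (hO2 : ∀ τ : ℂ, ‖τ‖ ≤ Real.sqrt δ / 2 → ((1 - 2 * δ : ℝ) : ℂ) • z + τ • jj i j z ∈ Ω) :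
    ‖fderiv ℂ f (((1 - δ : ℝ) : ℂ) • z) (jj i j z) - fderiv ℂ f (((1 - 2 * δ : ℝ) : ℂ) • z) (jj i j z)‖ ≤
      |C| * δ ^ a / (Real.sqrt δ / 2) := by
  have hz1 : ‖z‖ ≤ 1 := by simpa using hz
  have hw1 : ‖jj i j z‖ ≤ 1 := (norm_jj_le i j hij z).trans hz1
  have hs0 : 0 < Real.sqrt δ := Real.sqrt_pos.mpr hδ0
  have hss : Real.sqrt δ ^ 2 = δ := Real.sq_sqrt hδ0.le
  -- points stay in the ball
  have hin : ∀ u : ℝ, 0 ≤ u → u ≤ 1 - δ → ∀ τ : ℂ, ‖τ‖ ≤ Real.sqrt δ / 2 →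
      (u : ℂ) • z + τ • jj i j z ∈ ball (0 : V n) 1 := by
    intro u hu0 hu1 τ hτ
    rw [mem_ball_zero_iff]
    have h1 := norm_add_jj_sq i j hij (u : ℂ) τ z
    have h2 : ‖(u : ℂ)‖ = u := by rw [Complex.norm_real, Real.norm_eq_abs, abs_of_nonneg hu0]
    rw [h2] at h1
    have h3 : ‖z‖ ^ 2 ≤ 1 := by nlinarith [norm_nonneg z]
    have h4 : ‖jj i j z‖ ^ 2 ≤ 1 := by nlinarith [norm_nonneg (jj i j z)]
    have h5 : ‖τ‖ ^ 2 ≤ δ / 4 := by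
      have : ‖τ‖ ^ 2 ≤ (Real.sqrt δ / 2) ^ 2 := pow_le_pow_left₀ (norm_nonneg _) hτ 2
      rw [div_pow, hss] at this
      linarith
    have h6 : u ^ 2 ≤ (1 - δ) ^ 2 := pow_le_pow_left₀ hu0 hu1 2
    have h7 : u ^ 2 * ‖z‖ ^ 2 ≤ u ^ 2 := mul_le_of_le_one_right (sq_nonneg _) h3
    have h8 : ‖τ‖ ^ 2 * ‖jj i j z‖ ^ 2 ≤ ‖τ‖ ^ 2 := mul_le_of_le_one_right (sq_nonneg _) h4
    have h9 : ‖(u : ℂ) • z + τ • jj i j z‖ ^ 2 < 1 := by
      rw [h1]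
      nlinarith
    nlinarith [norm_nonneg ((u : ℂ) • z + τ • jj i j z)]
  have hda : ∀ u : ℝ, 0 ≤ u → u ≤ 1 - δ → ∀ τ : ℂ, ‖τ‖ ≤ Real.sqrt δ / 2 →
      DifferentiableAt ℂ (fun τ : ℂ => f ((u : ℂ) • z + τ • jj i j z)) τ := by
    intro u hu0 hu1 τ hτ
    have h1 : DifferentiableAt ℂ f ((u : ℂ) • z + τ • jj i j z) :=
      hf'.differentiableAt (isOpen_ball.mem_nhds (hin u hu0 hu1 τ hτ))
    exact DifferentiableAt.comp (f := fun τ : ℂ => (u : ℂ) • z + τ • jj i j z) τ h1 (by fun_prop)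
  have hder : ∀ u : ℝ, 0 ≤ u → u ≤ 1 - δ →
      HasDerivAt (fun τ : ℂ => f ((u : ℂ) • z + τ • jj i j z)) (fderiv ℂ f ((u : ℂ) • z) (jj i j z)) 0 := by
    intro u hu0 hu1
    have h0 := hin u hu0 hu1 0 (by rw [norm_zero]; positivity)
    rw [zero_smul, add_zero] at h0
    have h1 : HasFDerivAt f (fderiv ℂ f ((u : ℂ) • z)) ((u : ℂ) • z) :=
      (hf'.differentiableAt (isOpen_ball.mem_nhds h0)).hasFDerivAt
    have h2 : HasDerivAt (fun τ : ℂ => (u : ℂ) • z + τ • jj i j z) (jj i j z) 0 := by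
      have h3 := ((hasDerivAt_id (0 : ℂ)).smul_const (jj i j z)).const_add ((u : ℂ) • z)
      simpa using h3
    have h4 : HasFDerivAt f (fderiv ℂ f ((u : ℂ) • z)) ((fun τ : ℂ => (u : ℂ) • z + τ • jj i j z) 0) := by
      simpa using h1
    exact h4.comp_hasDerivAt (0 : ℂ) h2
  have hu1 : (0 : ℝ) ≤ 1 - δ := by linarith
  have hu2 : (0 : ℝ) ≤ 1 - 2 * δ := by linarith
  have hu3 : (1 : ℝ) - 2 * δ ≤ 1 - δ := by linarith
  have hd := (hder (1 - δ) hu1 le_rfl).sub (hder (1 - 2 * δ) hu2 hu3)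
  have hR : 0 < Real.sqrt δ / 2 := by positivity
  have hcl : DiffContOnCl ℂ ((fun τ : ℂ => f (((1 - δ : ℝ) : ℂ) • z + τ • jj i j z)) -
      fun τ : ℂ => f (((1 - 2 * δ : ℝ) : ℂ) • z + τ • jj i j z)) (ball (0 : ℂ) (Real.sqrt δ / 2)) := by
    refine DifferentiableOn.diffContOnCl ?_
    intro τ hτ
    have hτ1 : ‖τ‖ ≤ Real.sqrt δ / 2 := by
      have := closure_ball_subset_closedBall hτ
      simpa using this
    exact ((hda _ hu1 le_rfl τ hτ1).sub (hda _ hu2 hu3 τ hτ1)).differentiableWithinAt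
  have hC : ∀ τ ∈ sphere (0 : ℂ) (Real.sqrt δ / 2), ‖((fun τ : ℂ => f (((1 - δ : ℝ) : ℂ) • z + τ • jj i j z)) -
      fun τ : ℂ => f (((1 - 2 * δ : ℝ) : ℂ) • z + τ • jj i j z)) τ‖ ≤ |C| * δ ^ a := by
    intro τ hτ
    have hτ1 : ‖τ‖ ≤ Real.sqrt δ / 2 := by
      have : ‖τ‖ = Real.sqrt δ / 2 := by simpa using hτ
      exact this.le
    rw [Pi.sub_apply]
    have h1 := hL _ ⟨hin _ hu1 le_rfl τ hτ1, hO1 τ hτ1⟩ _ ⟨hin _ hu2 hu3 τ hτ1, hO2 τ hτ1⟩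
    have h2 : (((1 - δ : ℝ) : ℂ) • z + τ • jj i j z) - (((1 - 2 * δ : ℝ) : ℂ) • z + τ • jj i j z) = ((δ : ℝ) : ℂ) • z := by
      rw [add_sub_add_right_eq_sub, ← sub_smul]
      congr 1
      push_cast
      ring
    rw [h2] at h1
    have h3 : ‖((δ : ℝ) : ℂ) • z‖ ≤ δ := by
      rw [norm_smul, Complex.norm_real, Real.norm_eq_abs, abs_of_pos hδ0]
      exact mul_le_of_le_one_right hδ0.le hz1
    have h4 : ‖((δ : ℝ) : ℂ) • z‖ ^ a ≤ δ ^ a := Real.rpow_le_rpow (norm_nonneg _) h3 ha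
    calc _ ≤ C * ‖((δ : ℝ) : ℂ) • z‖ ^ a := h1
      _ ≤ |C| * ‖((δ : ℝ) : ℂ) • z‖ ^ a :=
          mul_le_mul_of_nonneg_right (le_abs_self C) (Real.rpow_nonneg (norm_nonneg _) _)
      _ ≤ |C| * δ ^ a := mul_le_mul_of_nonneg_left h4 (abs_nonneg C)
  have hfin := Complex.norm_deriv_le_of_forall_mem_sphere_norm_le hR hcl hC
  rw [hd.deriv] at hfin
  exact hfin

theorem lip_ext_loc (Ω : Set (V n)) (hΩ : IsOpen Ω) (i j : Fin n) (hij : i ≠ j) (f : V n → ℂ)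
    (hf' : DifferentiableOn ℂ f (ball (0 : V n) 1)) (a C : ℝ) (ha : 1 / 2 < a)
    (hL : ∀ z ∈ ball (0 : V n) 1 ∩ Ω, ∀ w ∈ ball (0 : V n) 1 ∩ Ω, ‖f z - f w‖ ≤ C * ‖z - w‖ ^ a) :
    ∃ tf : V n → ℂ, TgL Ω i j f tf := by
  obtain ⟨q, hqdef⟩ : ∃ q : ℝ, q = (1 / 2 : ℝ) ^ (a - 1 / 2) := ⟨_, rfl⟩
  have hq0 : 0 < q := by rw [hqdef]; positivity
  have hq1 : q < 1 := by rw [hqdef]; exact Real.rpow_lt_one (by norm_num) (by norm_num) (by linarith)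
  -- the sequence
  obtain ⟨T, hT⟩ : ∃ T : ℕ → V n → ℂ, ∀ k z, T k z =
      fderiv ℂ f (((1 - (1 / 2 : ℝ) ^ (k + 1) : ℝ) : ℂ) • z) (jj i j z) := ⟨_, fun _ _ => rfl⟩
  have hrk : ∀ k : ℕ, 0 < (1 / 2 : ℝ) ^ (k + 1) ∧ (1 / 2 : ℝ) ^ (k + 1) ≤ 1 / 2 := by
    intro k
    refine ⟨by positivity, ?_⟩
    have h1 : (1 / 2 : ℝ) ^ k ≤ 1 := pow_le_one₀ (by norm_num) (by norm_num)
    rw [pow_succ]
    linarith
  have hstep : ∀ k : ℕ, ∀ z ∈ closedBall (0 : V n) 1,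
      (∀ τ : ℂ, ‖τ‖ ≤ Real.sqrt ((1 / 2 : ℝ) ^ (k + 2)) / 2 →
        ((1 - (1 / 2 : ℝ) ^ (k + 2) : ℝ) : ℂ) • z + τ • jj i j z ∈ Ω) →
      (∀ τ : ℂ, ‖τ‖ ≤ Real.sqrt ((1 / 2 : ℝ) ^ (k + 2)) / 2 →
        ((1 - 2 * (1 / 2 : ℝ) ^ (k + 2) : ℝ) : ℂ) • z + τ • jj i j z ∈ Ω) →
      dist (T k z) (T (k + 1) z) ≤ (2 * |C| * q ^ 2) * q ^ k := by
    intro k z hz hO1 hO2
    have hδ0 : 0 < (1 / 2 : ℝ) ^ (k + 2) := by positivity
    have hδ1 : (1 / 2 : ℝ) ^ (k + 2) ≤ 1 / 4 := by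
      have h1 := (hrk k).2
      rw [show k + 2 = (k + 1) + 1 from rfl, pow_succ]
      linarith
    have h1 := lip_step_loc Ω i j hij f hf' a C (by linarith) hL _ hδ0 hδ1 z hz hO1 hO2
    have h2 : (1 : ℝ) - 2 * (1 / 2 : ℝ) ^ (k + 2) = 1 - (1 / 2 : ℝ) ^ (k + 1) := by
      rw [show k + 2 = (k + 1) + 1 from rfl, pow_succ (1 / 2 : ℝ) (k + 1)]
      ring
    rw [h2] at h1
    rw [dist_comm, dist_eq_norm, hT, hT]
    refine h1.trans (le_of_eq ?_)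
    have h3 : Real.sqrt ((1 / 2 : ℝ) ^ (k + 2)) = ((1 / 2 : ℝ) ^ (k + 2)) ^ (1 / 2 : ℝ) := Real.sqrt_eq_rpow _
    have h4 : ((1 / 2 : ℝ) ^ (k + 2)) ^ a / ((1 / 2 : ℝ) ^ (k + 2)) ^ (1 / 2 : ℝ) = q ^ (k + 2) := by
      rw [← Real.rpow_sub hδ0, hqdef, ← Real.rpow_natCast, ← Real.rpow_mul (by norm_num), ← Real.rpow_natCast,
        ← Real.rpow_mul (by norm_num)]
      congr 1
      ring
    rw [h3]
    have h5 : 0 < ((1 / 2 : ℝ) ^ (k + 2)) ^ (1 / 2 : ℝ) := by positivity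
    calc |C| * ((1 / 2 : ℝ) ^ (k + 2)) ^ a / (((1 / 2 : ℝ) ^ (k + 2)) ^ (1 / 2 : ℝ) / 2)
        = 2 * |C| * (((1 / 2 : ℝ) ^ (k + 2)) ^ a / ((1 / 2 : ℝ) ^ (k + 2)) ^ (1 / 2 : ℝ)) := by field_simp
      _ = 2 * |C| * q ^ (k + 2) := by rw [h4]
      _ = (2 * |C| * q ^ 2) * q ^ k := by rw [pow_add]; ring
  -- the local bound
  have hloc : ∀ p ∈ closedBall (0 : V n) 1 ∩ Ω, ∃ ε : ℝ, 0 < ε ∧ ∃ k0 : ℕ, ∀ z ∈ closedBall (0 : V n) 1 ∩ ball p ε,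
      ∀ k : ℕ, dist (T (k + k0) z) (T (k + 1 + k0) z) ≤ (2 * |C| * q ^ 2 * q ^ k0) * q ^ k := by
    intro p hp
    obtain ⟨r, hr0, hrΩ⟩ := Metric.isOpen_iff.mp hΩ p hp.2
    refine ⟨r / 3, by positivity, ?_⟩
    obtain ⟨ε, hε⟩ : ∃ ε : ℝ, ε = r / 3 := ⟨_, rfl⟩
    have hε0 : 0 < ε := by rw [hε]; positivity
    have hr3 : r = 3 * ε := by rw [hε]; ring
    rw [← hε]
    obtain ⟨k0, hk0⟩ := exists_pow_lt_of_lt_one (show (0 : ℝ) < min (ε / 2) (ε ^ 2) from lt_min (by positivity) (by positivity))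
      (show (1 / 2 : ℝ) < 1 by norm_num)
    refine ⟨k0, ?_⟩
    intro z hz k
    have hz1 : ‖z‖ ≤ 1 := by simpa using hz.1
    have hw1 : ‖jj i j z‖ ≤ 1 := (norm_jj_le i j hij z).trans hz1
    have hzp : ‖z - p‖ < ε := by
      have := hz.2
      rwa [mem_ball, dist_eq_norm] at this
    have hδ : (1 / 2 : ℝ) ^ (k + k0 + 2) < min (ε / 2) (ε ^ 2) := by
      refine lt_of_le_of_lt ?_ hk0
      exact pow_le_pow_of_le_one (by norm_num) (by norm_num) (by omega)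
    have hδp : 0 < (1 / 2 : ℝ) ^ (k + k0 + 2) := by positivity
    have hδa : (1 / 2 : ℝ) ^ (k + k0 + 2) < ε / 2 := lt_of_lt_of_le hδ (min_le_left _ _)
    have hδb : (1 / 2 : ℝ) ^ (k + k0 + 2) < ε ^ 2 := lt_of_lt_of_le hδ (min_le_right _ _)
    have hsq : Real.sqrt ((1 / 2 : ℝ) ^ (k + k0 + 2)) < ε := by
      rw [Real.sqrt_lt' hε0]
      exact hδb
    have hO : ∀ s : ℝ, 0 ≤ s → s < ε → ∀ τ : ℂ, ‖τ‖ ≤ Real.sqrt ((1 / 2 : ℝ) ^ (k + k0 + 2)) / 2 →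
        ((1 - s : ℝ) : ℂ) • z + τ • jj i j z ∈ Ω := by
      intro s hs0 hs1 τ hτ
      refine hrΩ ?_
      rw [mem_ball, dist_eq_norm, hr3]
      have e1 : ((1 - s : ℝ) : ℂ) • z + τ • jj i j z - p = (z - p) + (-((s : ℝ) : ℂ)) • z + τ • jj i j z := by
        have : ((1 - s : ℝ) : ℂ) = 1 + -((s : ℝ) : ℂ) := by push_cast; ring
        rw [this, add_smul, one_smul]
        abel
      rw [e1]
      have e2 : ‖(-((s : ℝ) : ℂ)) • z‖ ≤ s := by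
        rw [norm_smul, norm_neg, Complex.norm_real, Real.norm_eq_abs, abs_of_nonneg hs0]
        exact mul_le_of_le_one_right hs0 hz1
      have e3 : ‖τ • jj i j z‖ ≤ ‖τ‖ := by
        rw [norm_smul]
        exact mul_le_of_le_one_right (norm_nonneg _) hw1
      have e4 : 0 ≤ Real.sqrt ((1 / 2 : ℝ) ^ (k + k0 + 2)) := Real.sqrt_nonneg _
      calc ‖(z - p) + (-((s : ℝ) : ℂ)) • z + τ • jj i j z‖
          ≤ ‖z - p‖ + ‖(-((s : ℝ) : ℂ)) • z‖ + ‖τ • jj i j z‖ := norm_add₃_le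
        _ < 3 * ε := by linarith
    have h1 := hstep (k + k0) z hz.1 (hO _ hδp.le (by linarith)) (hO _ (by linarith) (by linarith))
    have h2 : k + 1 + k0 = k + k0 + 1 := by omega
    rw [h2]
    refine h1.trans (le_of_eq ?_)
    rw [pow_add q k k0]
    ring
  have hlim : ∀ z ∈ closedBall (0 : V n) 1 ∩ Ω, ∃ l : ℂ, Filter.Tendsto (fun k => T k z) Filter.atTop (nhds l) := by
    intro z hz
    obtain ⟨ε, hε0, k0, hk0⟩ := hloc z hz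
    obtain ⟨l, hl⟩ := cauchySeq_tendsto_of_complete
      (cauchySeq_of_le_geometric q _ hq1 fun k => hk0 z ⟨hz.1, mem_ball_self hε0⟩ k)
    exact ⟨l, (Filter.tendsto_add_atTop_iff_nat k0).mp hl⟩
  choose! tf htf using hlim
  refine ⟨tf, ?_, ?_⟩
  · intro p hp
    obtain ⟨ε, hε0, k0, hk0⟩ := hloc p hp
    obtain ⟨r, hr0, hrΩ⟩ := Metric.isOpen_iff.mp hΩ p hp.2
    obtain ⟨η, hηdef⟩ : ∃ η : ℝ, η = min ε r := ⟨_, rfl⟩
    have hη0 : 0 < η := by rw [hηdef]; exact lt_min hε0 hr0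
    have hηε : ball p η ⊆ ball p ε := ball_subset_ball (by rw [hηdef]; exact min_le_left _ _)
    have hηΩ : ball p η ⊆ Ω := (ball_subset_ball (by rw [hηdef]; exact min_le_right _ _)).trans hrΩ
    have hunif : TendstoUniformlyOn (fun k => T (k + k0)) tf Filter.atTop (closedBall (0 : V n) 1 ∩ ball p η) := by
      rw [Metric.tendstoUniformlyOn_iff]
      intro e he
      have h1 : Filter.Tendsto (fun k : ℕ => (2 * |C| * q ^ 2 * q ^ k0) * q ^ k / (1 - q)) Filter.atTop (nhds 0) := by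
        have h2 := ((tendsto_pow_atTop_nhds_zero_of_lt_one hq0.le hq1).const_mul (2 * |C| * q ^ 2 * q ^ k0)).div_const (1 - q)
        simpa using h2
      filter_upwards [h1.eventually (gt_mem_nhds he)] with k hk z hz
      rw [dist_comm]
      have hz' : Filter.Tendsto (fun k => T (k + k0) z) Filter.atTop (nhds (tf z)) :=
        (Filter.tendsto_add_atTop_iff_nat k0).mpr (htf z ⟨hz.1, hηΩ hz.2⟩)
      exact lt_of_le_of_lt (dist_le_of_le_geometric_of_tendsto q _ hq1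
        (fun k => hk0 z ⟨hz.1, hηε hz.2⟩ k) hz' k) hk
    have hball : ∀ (u : ℝ), 0 ≤ u → u < 1 → ∀ z ∈ closedBall (0 : V n) 1, (u : ℂ) • z ∈ ball (0 : V n) 1 := by
      intro u hu0 hu1 z hz
      have hz1 : ‖z‖ ≤ 1 := by simpa using hz
      rw [mem_ball_zero_iff, norm_smul, Complex.norm_real, Real.norm_eq_abs, abs_of_nonneg hu0]
      exact lt_of_le_of_lt (mul_le_of_le_one_right hu0 hz1) hu1
    have hcont : ContinuousOn tf (closedBall (0 : V n) 1 ∩ ball p η) := by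
      refine hunif.continuousOn (Filter.Eventually.frequently (Filter.Eventually.of_forall fun k => ?_))
      have h1 : ContinuousOn (fun z : V n => fderiv ℂ f (((1 - (1 / 2 : ℝ) ^ (k + k0 + 1) : ℝ) : ℂ) • z))
          (closedBall (0 : V n) 1) := by
        refine (cont_fderiv f hf').comp (by fun_prop) ?_
        intro z hz
        exact hball _ (by linarith [(hrk (k + k0)).2]) (by linarith [(hrk (k + k0)).1]) z hz
      have h2 : T (k + k0) = fun z => fderiv ℂ f (((1 - (1 / 2 : ℝ) ^ (k + k0 + 1) : ℝ) : ℂ) • z) (jj i j z) := by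
        funext z; exact hT (k + k0) z
      have h3 : ContinuousOn (T (k + k0)) (closedBall (0 : V n) 1) := by
        rw [h2]
        exact h1.clm_apply (continuous_jj i j).continuousOn
      exact h3.mono Set.inter_subset_left
    have hpm : p ∈ closedBall (0 : V n) 1 ∩ ball p η := ⟨hp.1, mem_ball_self hη0⟩
    refine (hcont p hpm).mono_of_mem_nhdsWithin ?_
    refine Filter.inter_mem ?_ (mem_nhdsWithin_of_mem_nhds (ball_mem_nhds p hη0))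
    exact Filter.mem_of_superset self_mem_nhdsWithin Set.inter_subset_left
  · intro z hz
    have hzc : z ∈ closedBall (0 : V n) 1 ∩ Ω := ⟨ball_subset_closedBall hz.1, hz.2⟩
    refine tendsto_nhds_unique (htf z hzc) ?_
    have h1 : Filter.Tendsto (fun k : ℕ => ((1 - (1 / 2 : ℝ) ^ (k + 1) : ℝ) : ℂ) • z) Filter.atTop (nhds z) := by
      have h2 : Filter.Tendsto (fun k : ℕ => (1 - (1 / 2 : ℝ) ^ (k + 1) : ℝ)) Filter.atTop (nhds 1) := by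
        have h3 : Filter.Tendsto (fun k : ℕ => (1 / 2 : ℝ) ^ (k + 1)) Filter.atTop (nhds 0) :=
          (tendsto_pow_atTop_nhds_zero_of_lt_one (by norm_num) (by norm_num)).comp (Filter.tendsto_add_atTop_nat 1)
        simpa using h3.const_sub 1
      have h4 : Filter.Tendsto (fun k : ℕ => ((1 - (1 / 2 : ℝ) ^ (k + 1) : ℝ) : ℂ)) Filter.atTop (nhds ((1 : ℝ) : ℂ)) :=
        (Complex.continuous_ofReal.tendsto 1).comp h2
      have h5 := h4.smul_const z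
      simpa using h5
    have h6 : ContinuousAt (fun z => fderiv ℂ f z) z := (cont_fderiv f hf').continuousAt (isOpen_ball.mem_nhds hz.1)
    have h7 : Filter.Tendsto (fun k : ℕ => fderiv ℂ f (((1 - (1 / 2 : ℝ) ^ (k + 1) : ℝ) : ℂ) • z)) Filter.atTop
        (nhds (fderiv ℂ f z)) := h6.tendsto.comp h1
    have h8 : Filter.Tendsto (fun k : ℕ => fderiv ℂ f (((1 - (1 / 2 : ℝ) ^ (k + 1) : ℝ) : ℂ) • z) (jj i j z)) Filter.atTop
        (nhds (fderiv ℂ f z (jj i j z))) :=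
      ((ContinuousLinearMap.apply ℂ ℂ (jj i j z)).continuous.tendsto (fderiv ℂ f z)).comp h7
    have h9 : (fun k : ℕ => T k z) = fun k => fderiv ℂ f (((1 - (1 / 2 : ℝ) ^ (k + 1) : ℝ) : ℂ) • z) (jj i j z) := by
      funext k; exact hT k z
    rw [h9]
    exact h8

end Pool.Agent.H44.LP
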