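import Pool.Agent.H44.LP.Defs

/-!
# [H44 LP Tr] From the cone to the discs

* `tr_null`: `P = pj v` (linear, `P (P z) = P z`, `‖z‖² = ‖P z‖² + ‖z - P z‖²` as `‖v‖ = 1`). For `z ∈ Z` with `P z ≠ 0`: `ζ = un z`, `t = ‖z‖ ∈ (0,1)`, `w = rh v t ζ = t P ζ + (ζ - P ζ) ∈ S`, and
  `z = J w`, `J w = P w + (‖P w‖ / √(1 - ‖w - P w‖²)) • (w - P w)` (`P w = t P ζ`, `w - P w = ζ - P ζ`, `1 - ‖ζ - P ζ‖² = ‖P ζ‖²`). `J` is real differentiable on the open set
  `U = {w | P w ≠ 0 ∧ ‖w - P w‖ < 1}` and `w ∈ U`. If `volume S = 0`, then `J '' (S ∩ U)` is null (`addHaar_image_eq_zero_of_differentiableOn_of_addHaar_eq_zero`, `DifferentiableOn ℝ`), and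
  `{z | P z = 0} = {z | ⟪v, z⟫ = 0}` is null (a proper subspace: `Measure.addHaar_submodule`), so `Z` is null.
-/

set_option autoImplicit false

namespace Pool.Agent.H44.LP

open MeasureTheory Metric Pool.Agent.H74.CB Pool.Agent.H44.SP

variable {n : ℕ}

/-- the projection as a continuous linear map -/
private noncomputable def pL (v : V n) : V n →L[ℂ] V n := (innerSL ℂ v).smulRight v

private theorem pL_apply (v z : V n) : pL v z = pj v z := rfl

private theorem pj_smul (v z : V n) (c : ℂ) : pj v (c • z) = c • pj v z := by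
  unfold pj
  rw [inner_smul_right, mul_smul]

private theorem pj_pj (v z : V n) (hv : ‖v‖ = 1) : pj v (pj v z) = pj v z := by
  unfold pj
  rw [inner_smul_right, inner_self_eq_norm_sq_to_K, hv]
  simp

private theorem pyth (v z : V n) (hv : ‖v‖ = 1) : ‖z‖ ^ 2 = ‖pj v z‖ ^ 2 + ‖z - pj v z‖ ^ 2 := by
  have h0 : inner ℂ (pj v z) (z - pj v z) = 0 := by
    unfold pj
    rw [inner_smul_left, inner_sub_right, inner_smul_right, inner_self_eq_norm_sq_to_K, hv]
    simp
  have h1 := norm_add_sq_eq_norm_sq_add_norm_sq_of_inner_eq_zero _ _ h0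
  rw [add_sub_cancel] at h1
  nlinarith

/-- the inverse map -/
private noncomputable def Jm (v w : V n) : V n :=
  pj v w + (‖pj v w‖ / Real.sqrt (1 - ‖w - pj v w‖ ^ 2)) • (w - pj v w)

private theorem Jm_diff (v w : V n) (h1 : pj v w ≠ 0) (h2 : ‖w - pj v w‖ < 1) :
    DifferentiableAt ℝ (Jm v) w := by
  have hP : DifferentiableAt ℝ (fun w : V n => pj v w) w :=
    ((pL v).restrictScalars ℝ).differentiableAt
  have hQ : DifferentiableAt ℝ (fun w : V n => w - pj v w) w := differentiableAt_id.sub hP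
  have hN : DifferentiableAt ℝ (fun w : V n => ‖pj v w‖) w := hP.norm ℂ h1
  have hM : DifferentiableAt ℝ (fun w : V n => 1 - ‖w - pj v w‖ ^ 2) w :=
    (differentiableAt_const 1).sub (hQ.norm_sq ℂ)
  have h3 : 0 < 1 - ‖w - pj v w‖ ^ 2 := by
    have : ‖w - pj v w‖ ^ 2 < 1 := pow_lt_one₀ (norm_nonneg _) h2 two_ne_zero
    linarith
  have hS : DifferentiableAt ℝ (fun w : V n => Real.sqrt (1 - ‖w - pj v w‖ ^ 2)) w := hM.sqrt h3.ne'
  have hI : DifferentiableAt ℝ (fun w : V n => (Real.sqrt (1 - ‖w - pj v w‖ ^ 2))⁻¹) w :=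
    DifferentiableAt.fun_inv hS (Real.sqrt_pos.2 h3).ne'
  have hD : DifferentiableAt ℝ (fun w : V n => ‖pj v w‖ / Real.sqrt (1 - ‖w - pj v w‖ ^ 2)) w :=
    DifferentiableAt.fun_mul hN hI
  have hE : DifferentiableAt ℝ
      (fun w : V n => (‖pj v w‖ / Real.sqrt (1 - ‖w - pj v w‖ ^ 2)) • (w - pj v w)) w :=
    DifferentiableAt.fun_smul hD hQ
  exact DifferentiableAt.fun_add hP hE

theorem tr_null (v : V n) (hv : ‖v‖ = 1) (Z S : Set (V n)) (hZ : (volume : Measure (V n)) Z ≠ 0)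
    (hsub : Z ⊆ ball (0 : V n) 1 ∩ {0}ᶜ)
    (h : ∀ z ∈ Z, (inner ℂ v z : ℂ) ≠ 0 → rh v ((‖z‖ : ℝ) : ℂ) (un z) ∈ S) :
    (volume : Measure (V n)) S ≠ 0 := by
  intro hS0
  apply hZ
  set U : Set (V n) := {w | pj v w ≠ 0 ∧ ‖w - pj v w‖ < 1} with hU
  have hnull : (volume : Measure (V n)) (Jm v '' (S ∩ U)) = 0 := by
    apply addHaar_image_eq_zero_of_differentiableOn_of_addHaar_eq_zero
    · intro w hw
      exact (Jm_diff v w hw.2.1 hw.2.2).differentiableWithinAt
    · exact measure_mono_null Set.inter_subset_left hS0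
  have hker : (volume : Measure (V n)) {z : V n | (inner ℂ v z : ℂ) = 0} = 0 := by
    have h1 := Measure.addHaar_submodule (volume : Measure (V n))
      ((LinearMap.ker ((innerSL ℂ v : V n →L[ℂ] ℂ) : V n →ₗ[ℂ] ℂ)).restrictScalars ℝ) (by
        intro htop
        have h2 : v ∈ (LinearMap.ker ((innerSL ℂ v : V n →L[ℂ] ℂ) : V n →ₗ[ℂ] ℂ)).restrictScalars ℝ := by
          rw [htop]; exact Submodule.mem_top
        have h3 : (inner ℂ v v : ℂ) = 0 := h2
        rw [inner_self_eq_zero] at h3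
        rw [h3, norm_zero] at hv
        exact zero_ne_one hv)
    exact h1
  refine measure_mono_null ?_ (measure_union_null hnull hker)
  intro z hz
  by_cases hin : (inner ℂ v z : ℂ) = 0
  · exact Or.inr hin
  · left
    have hz0 : z ≠ 0 := (hsub hz).2
    have ht : 0 < ‖z‖ := norm_pos_iff.2 hz0
    have hzu : (‖z‖ : ℂ) • un z = z := by
      unfold un
      have : ((‖z‖ : ℂ)) • ((‖z‖⁻¹ : ℝ) • z) = ((‖z‖ : ℂ) * ((‖z‖⁻¹ : ℝ) : ℂ)) • z := by
        rw [mul_smul]
        congr 1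
      rw [this, ← Complex.ofReal_mul, mul_inv_cancel₀ ht.ne', Complex.ofReal_one, one_smul]
    have hun : ‖un z‖ = 1 := by
      have h1 := congrArg norm hzu
      rw [norm_smul, Complex.norm_real, Real.norm_eq_abs, abs_of_pos ht] at h1
      exact mul_left_cancel₀ ht.ne' (by rw [h1, mul_one])
    have hPz : pj v z = (‖z‖ : ℂ) • pj v (un z) := by
      rw [← pj_smul, hzu]
    have hPz0 : pj v z ≠ 0 := by
      unfold pj
      intro h1
      rcases smul_eq_zero.1 h1 with h2 | h2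
      · exact hin h2
      · rw [h2, norm_zero] at hv
        exact zero_ne_one hv
    have hPu0 : pj v (un z) ≠ 0 := by
      intro h1
      rw [h1, smul_zero] at hPz
      exact hPz0 hPz
    have hPw : pj v (rh v ((‖z‖ : ℝ) : ℂ) (un z)) = (‖z‖ : ℂ) • pj v (un z) := by
      unfold rh
      rw [← pL_apply, map_add, map_smul, pL_apply, pL_apply, pj_pj v _ hv, sub_smul, one_smul]
      abel
    have hQw : rh v ((‖z‖ : ℝ) : ℂ) (un z) - pj v (rh v ((‖z‖ : ℝ) : ℂ) (un z)) = un z - pj v (un z) := by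
      rw [hPw]
      unfold rh
      rw [sub_smul, one_smul]
      abel
    have hpy := pyth v (un z) hv
    rw [hun, one_pow] at hpy
    have hPn : 0 < ‖pj v (un z)‖ := norm_pos_iff.2 hPu0
    refine ⟨rh v ((‖z‖ : ℝ) : ℂ) (un z), ⟨h z hz hin, ?_, ?_⟩, ?_⟩
    · rw [hPw, ← hPz]
      exact hPz0
    · rw [hQw]
      have h1 : ‖un z - pj v (un z)‖ ^ 2 < 1 := by nlinarith [pow_pos hPn 2]
      exact (sq_lt_one_iff₀ (norm_nonneg _)).1 h1
    · unfold Jm
      rw [hQw, hPw]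
      have h1 : 1 - ‖un z - pj v (un z)‖ ^ 2 = ‖pj v (un z)‖ ^ 2 := by linarith
      rw [h1, Real.sqrt_sq hPn.le, norm_smul, Complex.norm_real, Real.norm_eq_abs, abs_of_pos ht,
        mul_div_assoc, div_self hPn.ne', mul_one]
      have h2 : ((‖z‖ : ℝ) • (un z - pj v (un z)) : V n) = (‖z‖ : ℂ) • (un z - pj v (un z)) := rfl
      rw [h2, smul_sub, add_sub_cancel, hzu]

end Pool.Agent.H44.LP
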