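import Pool.Agent.H44.LP.DiL
import Pool.Agent.H44.LP.Tr
import Pool.Agent.H44.LP.LipL

/-!
# [H44 LP FiL] Sweeping by discs and the conclusion
-/

set_option autoImplicit false

namespace Pool.Agent.H44.LP

open MeasureTheory Metric Pool.Agent.H74.CB Pool.Agent.H44.SP Filter Topology

variable {n : ℕ}

theorem rh_near (v : V n) (hv : ‖v‖ = 1) (p : V n) (hvp : (inner ℂ v p : ℂ) = 0) (ε : ℝ) (ζ : V n) (θ0 : ℝ)
    (h : rv v θ0 ζ ∈ ball p ε) (l : ℂ) (hl : ‖l‖ ≤ 1) : rh v l ζ ∈ ball p (3 * ε) := by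
  obtain ⟨ζ', hζ'⟩ : ∃ ζ', ζ' = rv v θ0 ζ := ⟨_, rfl⟩
  rw [← hζ'] at h
  have hE : Complex.exp ((θ0 : ℂ) * Complex.I) ≠ 0 := Complex.exp_ne_zero _
  have h1 : rh v l ζ = rh v (l * (Complex.exp ((θ0 : ℂ) * Complex.I))⁻¹) ζ' := by
    rw [hζ', rv, rh_rh v hv, mul_assoc, inv_mul_cancel₀ hE, mul_one]
  have hm : ‖l * (Complex.exp ((θ0 : ℂ) * Complex.I))⁻¹‖ ≤ 1 := by
    rw [norm_mul, norm_inv, Complex.norm_exp_ofReal_mul_I, inv_one, mul_one]; exact hl
  rw [h1]
  obtain ⟨m, hmd⟩ : ∃ m, m = l * (Complex.exp ((θ0 : ℂ) * Complex.I))⁻¹ := ⟨_, rfl⟩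
  rw [← hmd] at hm ⊢
  have h2 : ‖(inner ℂ v ζ' : ℂ)‖ ≤ dist ζ' p := by
    have : (inner ℂ v ζ' : ℂ) = inner ℂ v (ζ' - p) := by rw [inner_sub_right, hvp, sub_zero]
    rw [this, dist_eq_norm]
    refine (norm_inner_le_norm v (ζ' - p)).trans ?_
    rw [hv, one_mul]
  have h3 : dist (rh v m ζ') ζ' ≤ 2 * dist ζ' p := by
    rw [dist_eq_norm, rh, add_sub_cancel_left, pj, norm_smul, norm_smul, hv, mul_one]
    have h4 : ‖m - 1‖ ≤ 2 := by
      refine (norm_sub_le _ _).trans ?_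
      rw [norm_one]; linarith
    exact mul_le_mul h4 h2 (norm_nonneg _) (by norm_num)
  have h5 : dist ζ' p < ε := h
  rw [mem_ball]
  have h6 := dist_triangle (rh v m ζ') ζ' p
  linarith

theorem sweep (v : V n) (hv : ‖v‖ = 1) (p : V n) (hvp : (inner ℂ v p : ℂ) = 0) (ε : ℝ) (C1 : Set (V n))
    (hC : MeasurableSet C1) (hpos : (volume : Measure (V n)) C1 ≠ 0) (hsub : C1 ⊆ pb (ball p ε)) (S : Set (V n))
    (hS : ∀ z : V n, z ∈ ball (0 : V n) 1 → z ≠ 0 → (inner ℂ v z : ℂ) ≠ 0 →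
      (∀ l : ℂ, ‖l‖ ≤ 1 → rh v l (un z) ∈ ball p (3 * ε)) →
      volume {θ : ℝ | θ ∈ Set.Ioo 0 (2 * Real.pi) ∧ rv v θ z ∈ C1} ≠ 0 → rh v ((‖z‖ : ℝ) : ℂ) (un z) ∈ S) :
    (volume : Measure (V n)) S ≠ 0 := by
  have hZ : (volume : Measure (V n)) {z : V n |
      volume {θ : ℝ | θ ∈ Set.Ioo 0 (2 * Real.pi) ∧ rv v θ z ∈ C1} ≠ 0} ≠ 0 := by
    intro h
    apply hpos
    refine flow_null (rv v) (rv_cont v) (rv_mp v hv) (2 * Real.pi) (by positivity) C1 hC ?_
    rw [ae_iff]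
    exact h
  have hkey : ∀ z ∈ {z : V n | volume {θ : ℝ | θ ∈ Set.Ioo 0 (2 * Real.pi) ∧ rv v θ z ∈ C1} ≠ 0},
      z ∈ ball (0 : V n) 1 ∩ {0}ᶜ ∧ ∃ θ0, rv v θ0 (un z) ∈ ball p ε := by
    intro z hz
    have hz' : volume {θ : ℝ | θ ∈ Set.Ioo 0 (2 * Real.pi) ∧ rv v θ z ∈ C1} ≠ 0 := hz
    obtain ⟨θ0, _, hθ0⟩ := nonempty_of_measure_ne_zero hz'
    have h1 := hsub hθ0
    have hnr := rv_norm v hv θ0 z
    refine ⟨⟨?_, ?_⟩, θ0, ?_⟩
    · have := h1.1.1
      rw [mem_ball_zero_iff] at this ⊢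
      rwa [hnr] at this
    · intro h
      apply h1.1.2
      have h' : z = 0 := h
      have : ‖rv v θ0 z‖ = 0 := by rw [hnr, h', norm_zero]
      exact norm_eq_zero.mp this
    · rw [← un_rv v hv]
      exact h1.2
  refine tr_null v hv _ S hZ (fun z hz => (hkey z hz).1) ?_
  intro z hz hvz
  obtain ⟨h1, θ0, h2⟩ := hkey z hz
  exact hS z h1.1 h1.2 hvz (fun l hl => rh_near v hv p hvp ε (un z) θ0 h2 l hl) hz

/-- extension of the derivative along `jU u v` -/
noncomputable def tU (u v : V n) (tf : Fin n → Fin n → V n → ℂ) (z : V n) : ℂ :=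
  ∑ i, ∑ j, if i = j then 0 else (u i * v j) * tf i j z

theorem jU_sum (u v z : V n) : jU u v z = ∑ i, ∑ j, if i = j then 0 else (u i * v j) • jj i j z := by
  have hjj : ∀ i : Fin n, jj i i z = 0 := by intro i; rw [jj, sub_self]
  have h1 : (∑ i, ∑ j, if i = j then 0 else (u i * v j) • jj i j z) = ∑ i, ∑ j, (u i * v j) • jj i j z := by
    refine Finset.sum_congr rfl fun i _ => Finset.sum_congr rfl fun j _ => ?_
    split_ifs with h
    · rw [h, hjj, smul_zero]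
    · rfl
  rw [h1]
  ext k
  have hu : (starRingEnd ℂ) (inner ℂ u z : ℂ) = ∑ i, u i * (starRingEnd ℂ) (z i) := by
    rw [PiLp.inner_apply, map_sum]
    refine Finset.sum_congr rfl fun i _ => ?_
    rw [RCLike.inner_apply, map_mul, Complex.conj_conj]; ring
  have hv : (starRingEnd ℂ) (inner ℂ v z : ℂ) = ∑ i, v i * (starRingEnd ℂ) (z i) := by
    rw [PiLp.inner_apply, map_sum]
    refine Finset.sum_congr rfl fun i _ => ?_
    rw [RCLike.inner_apply, map_mul, Complex.conj_conj]; ring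
  have hL : (jU u v z) k = (∑ i, u i * (starRingEnd ℂ) (z i)) * v k - (∑ i, v i * (starRingEnd ℂ) (z i)) * u k := by
    rw [jU, hu, hv]; rfl
  have hR : (∑ i, ∑ j, (u i * v j) • jj i j z) k = ∑ i, ∑ j, (u i * v j) * jj i j z k := by
    have e1 : ∀ (s : Finset (Fin n)) (F : Fin n → V n), (∑ i ∈ s, F i) k = ∑ i ∈ s, F i k := by
      intro s F
      simp
    rw [e1]
    refine Finset.sum_congr rfl fun i _ => ?_
    rw [e1]
    rfl
  rw [hL, hR]
  simp only [jj_apply, mul_sub, mul_ite, mul_zero, Finset.sum_sub_distrib, Finset.sum_ite_eq, Finset.mem_univ, if_true]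
  congr 1
  · rw [Finset.sum_mul]
    refine Finset.sum_congr rfl fun i _ => ?_
    ring
  · rw [Finset.sum_comm, Finset.sum_mul]
    refine Finset.sum_congr rfl fun j _ => ?_
    simp only [Finset.sum_ite_eq, Finset.mem_univ, if_true]
    ring

theorem tgU_of (Ω : Set (V n)) (f : V n → ℂ) (tf : Fin n → Fin n → V n → ℂ)
    (hT : ∀ i j, i ≠ j → TgL Ω i j f (tf i j)) (u v : V n) : TgU Ω u v f (tU u v tf) := by
  constructor
  · unfold tU
    refine continuousOn_finset_sum _ fun i _ => continuousOn_finset_sum _ fun j _ => ?_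
    by_cases h : i = j
    · simp only [h, if_true]; exact continuousOn_const
    · simp only [h, if_false]; exact continuousOn_const.mul (hT i j h).1
  · intro z hz
    rw [tU, jU_sum, map_sum]
    refine Finset.sum_congr rfl fun i _ => ?_
    rw [map_sum]
    refine Finset.sum_congr rfl fun j _ => ?_
    by_cases h : i = j
    · simp only [h, if_true, map_zero]
    · simp only [h, if_false, map_smul, smul_eq_mul]
      rw [(hT i j h).2 z hz]

theorem tU_wr (f g : V n → ℂ) (tf tg : Fin n → Fin n → V n → ℂ) (u v z : V n)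
    (h : ∀ i j, i ≠ j → g z * tf i j z - f z * tg i j z = 0) :
    g z * tU u v tf z - f z * tU u v tg z = 0 := by
  rw [tU, tU, Finset.mul_sum, Finset.mul_sum, ← Finset.sum_sub_distrib]
  refine Finset.sum_eq_zero fun i _ => ?_
  rw [Finset.mul_sum, Finset.mul_sum, ← Finset.sum_sub_distrib]
  refine Finset.sum_eq_zero fun j _ => ?_
  by_cases hij : i = j
  · simp [hij]
  · simp only [hij, if_false]
    have := h i j hij
    linear_combination (u i * v j) * this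

end Pool.Agent.H44.LP
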