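import Pool.Agent.H44.LP.FiL

/-!
# [H44 LP GiL] The local theorem
-/

set_option autoImplicit false

namespace Pool.Agent.H44.LP

open MeasureTheory Metric Pool.Agent.H74.CB Pool.Agent.H44.SP Filter Topology

variable {n : ℕ}

theorem exists_p (Ω : Set (V n)) (N : Set (V n)) (hN : N ⊆ pb Ω) (hpos : (volume : Measure (V n)) N ≠ 0) :
    ∃ p ∈ Ω, ‖p‖ = 1 ∧ ∀ ε > 0, (volume : Measure (V n)) {z | z ∈ N ∧ un z ∈ ball p ε} ≠ 0 := by
  by_contra hcon
  push Not at hcon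
  apply hpos
  apply measure_null_of_locally_null
  intro x hx
  have hx' := hN hx
  obtain ⟨ε, hε, h0⟩ := hcon (un x) hx'.2 (norm_un x hx'.1.2)
  refine ⟨_, ?_, h0⟩
  rw [mem_nhdsWithin_iff_eventually]
  have h1 : ContinuousAt (un : V n → V n) x :=
    continuousOn_un.continuousAt (isOpen_compl_singleton.mem_nhds hx'.1.2)
  have h2 := h1.eventually (ball_mem_nhds (un x) hε)
  filter_upwards [h2] with z hz hzN
  exact ⟨hzN, hz⟩

theorem exists_perp (hn : 2 ≤ n) (p : V n) (hp : p ≠ 0) : ∃ v : V n, ‖v‖ = 1 ∧ (inner ℂ v p : ℂ) = 0 := by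
  obtain ⟨i, hi⟩ : ∃ i, p i ≠ 0 := by
    by_contra h
    push Not at h
    apply hp
    ext k
    exact h k
  obtain ⟨j, hij⟩ : ∃ j : Fin n, j ≠ i := by
    have : Nontrivial (Fin n) := Fin.nontrivial_iff_two_le.mpr hn
    exact exists_ne i
  have h0 : (inner ℂ (jj i j p) p : ℂ) = 0 := by
    rw [PiLp.inner_apply, ← Finset.add_sum_erase _ _ (Finset.mem_univ i),
      ← Finset.add_sum_erase _ _ (Finset.mem_erase.mpr ⟨hij, Finset.mem_univ j⟩), Finset.sum_eq_zero]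
    · simp [jj_apply, hij, hij.symm]
      ring
    · intro k hk
      simp only [Finset.mem_erase, Finset.mem_univ, and_true] at hk
      simp [jj_apply, hk.1, hk.2]
  have h1 : jj i j p ≠ 0 := by
    intro h
    have h2 := norm_jj_sq i j hij.symm p
    rw [h, norm_zero] at h2
    have h3 : 0 < ‖p i‖ ^ 2 := by
      have := norm_pos_iff.mpr hi
      positivity
    nlinarith [sq_nonneg ‖p j‖]
  refine ⟨((‖jj i j p‖⁻¹ : ℝ) : ℂ) • jj i j p, ?_, ?_⟩
  · rw [norm_smul, Complex.norm_real, norm_inv, norm_norm, inv_mul_cancel₀ (norm_ne_zero_iff.mpr h1)]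
  · rw [inner_smul_left, h0, mul_zero]

/-- the function which vanishes -/
noncomputable def th (f g : V n → ℂ) (v u z : V n) : ℂ :=
  (inner ℂ v z : ℂ) * (starRingEnd ℂ) (inner ℂ u z : ℂ) * dw f g v z -
    (1 - ((‖z‖ ^ 2 : ℝ) : ℂ) + (inner ℂ v z : ℂ) * (starRingEnd ℂ) (inner ℂ v z : ℂ)) * dw f g u z

theorem inner_line (v a b : V n) (s : ℝ) : (inner ℂ v (a + s • b) : ℂ) = inner ℂ v a + (s : ℂ) * inner ℂ v b := by
  rw [inner_add_right, inner_smul_right_eq_smul]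
  rfl

theorem ana_dw (f g : V n → ℂ) (hf' : DifferentiableOn ℂ f (ball (0 : V n) 1))
    (hg' : DifferentiableOn ℂ g (ball (0 : V n) 1)) (w a b : V n) (t : ℝ) (ht : a + t • b ∈ ball (0 : V n) 1) :
    AnalyticAt ℝ (fun s : ℝ => dw f g w (a + s • b)) t := by
  have h1 := ana_line _ _ (isOpen_line a b) (hol_fderiv f hf' a b w) t ht
  have h2 := ana_line _ _ (isOpen_line a b) (hol_fderiv g hg' a b w) t ht
  exact ((ana_f g hg' a b t ht).mul h1).sub ((ana_f f hf' a b t ht).mul h2)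

theorem ana_th (f g : V n → ℂ) (hf' : DifferentiableOn ℂ f (ball (0 : V n) 1))
    (hg' : DifferentiableOn ℂ g (ball (0 : V n) 1)) (v u a b : V n) (t : ℝ) (ht : a + t • b ∈ ball (0 : V n) 1) :
    AnalyticAt ℝ (fun s : ℝ => th f g v u (a + s • b)) t := by
  have h0 : AnalyticAt ℝ (fun s : ℝ => (s : ℂ)) t := Complex.ofRealCLM.analyticAt t
  have h1 : ∀ w : V n, AnalyticAt ℝ (fun s : ℝ => (inner ℂ w (a + s • b) : ℂ)) t := by
    intro w
    simp only [inner_line]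
    exact analyticAt_const.add (h0.mul analyticAt_const)
  have h2 : ∀ w : V n, AnalyticAt ℝ (fun s : ℝ => (starRingEnd ℂ) (inner ℂ w (a + s • b) : ℂ)) t := by
    intro w
    simp only [inner_line, map_add, map_mul, Complex.conj_ofReal]
    exact analyticAt_const.add (h0.mul analyticAt_const)
  have h3 : AnalyticAt ℝ (fun s : ℝ => ((‖a + s • b‖ ^ 2 : ℝ) : ℂ)) t := by
    have e : (fun s : ℝ => ((‖a + s • b‖ ^ 2 : ℝ) : ℂ)) = fun s : ℝ =>
        ((‖a‖ ^ 2 : ℝ) : ℂ) + 2 * ((s : ℂ) * ((inner ℝ a b : ℝ) : ℂ)) + (s : ℂ) * (s : ℂ) * ((‖b‖ ^ 2 : ℝ) : ℂ) := by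
      funext s
      rw [norm_add_sq_real, real_inner_smul_right, norm_smul, mul_pow, Real.norm_eq_abs, sq_abs]
      push_cast
      ring
    rw [e]
    exact (analyticAt_const.add (analyticAt_const.mul (h0.mul analyticAt_const))).add ((h0.mul h0).mul analyticAt_const)
  exact (((h1 v).mul (h2 u)).mul (ana_dw f g hf' hg' v a b t ht)).sub
    (((analyticAt_const.sub h3).add ((h1 v).mul (h2 v))).mul (ana_dw f g hf' hg' u a b t ht))

theorem cont_th (f g : V n → ℂ) (hf' : DifferentiableOn ℂ f (ball (0 : V n) 1))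
    (hg' : DifferentiableOn ℂ g (ball (0 : V n) 1)) (v u : V n) : ContinuousOn (th f g v u) (ball (0 : V n) 1) := by
  have h1 : ∀ w : V n, Continuous fun z : V n => (inner ℂ w z : ℂ) := fun w => by fun_prop
  have h2 : ∀ w : V n, Continuous fun z : V n => (starRingEnd ℂ) (inner ℂ w z : ℂ) := fun w =>
    Complex.continuous_conj.comp (h1 w)
  have h3 : Continuous fun z : V n => ((‖z‖ ^ 2 : ℝ) : ℂ) := by fun_prop
  unfold th
  exact ((((h1 v).mul (h2 u)).continuousOn).mul (cont_dw f g hf' hg' v)).sub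
    (((continuous_const.sub h3).add ((h1 v).mul (h2 v))).continuousOn.mul (cont_dw f g hf' hg' u))

/-- the equation from the discs -/
theorem th_pos (hn : 2 ≤ n) (Ω : Set (V n)) (hΩ : IsOpen Ω) (f g : V n → ℂ)
    (hf : ContinuousOn f (closedBall (0 : V n) 1 ∩ Ω)) (hf' : DifferentiableOn ℂ f (ball (0 : V n) 1))
    (hg : ContinuousOn g (closedBall (0 : V n) 1 ∩ Ω)) (hg' : DifferentiableOn ℂ g (ball (0 : V n) 1))
    (tf tg : Fin n → Fin n → V n → ℂ)
    (hTf : ∀ i j, i ≠ j → TgL Ω i j f (tf i j)) (hTg : ∀ i j, i ≠ j → TgL Ω i j g (tg i j))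
    (v u : V n) (hv : ‖v‖ = 1) (huv : (inner ℂ u v : ℂ) = 0) (p : V n) (hvp : (inner ℂ v p : ℂ) = 0)
    (ε : ℝ) (hε : 0 < ε) (hεΩ : ball p (3 * ε) ⊆ Ω)
    (hpos : (volume : Measure (V n)) {z | (z ∈ pb Ω ∧ ‖f (un z)‖ = ‖g (un z)‖) ∧ un z ∈ ball p ε} ≠ 0) :
    ∀ z ∈ ball (0 : V n) 1, th f g v u z = 0 := by
  have hUf := tgU_of Ω f tf hTf u v
  have hUg := tgU_of Ω g tg hTg u v
  have hsub1 : ball p ε ⊆ Ω := (ball_subset_ball (by linarith)).trans hεΩ
  have hΨ : ContinuousOn (fun z => g z * tU u v tf z - f z * tU u v tg z) (closedBall (0 : V n) 1 ∩ Ω) :=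
    (hg.mul hUf.1).sub (hf.mul hUg.1)
  have hsub2 : pb (ball p ε) ⊆ pb Ω := fun z hz => ⟨hz.1, hsub1 hz.2⟩
  refine all_zero (by omega) _ (cont_th f g hf' hg' v u) (fun a b t ht => ana_th f g hf' hg' v u a b t ht) ?_
  refine sweep v hv p hvp ε
    ({z | z ∈ pb (ball p ε) ∧ ‖f (un z)‖ - ‖g (un z)‖ = 0} ∩
      {z | z ∈ pb (ball p ε) ∧ g (un z) * tU u v tf (un z) - f (un z) * tU u v tg (un z) = 0}) ?_ ?_
    (fun z hz => hz.1.1) _ ?_
  · have m1 := Pool.Agent.H44.CM.measurableSet_zero (F := ℝ) (isOpen_pbL (ball p ε) isOpen_ball)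
      (f := fun z : V n => ‖f (un z)‖ - ‖g (un z)‖)
      (((cont_unL Ω f hf).mono hsub2).norm.sub ((cont_unL Ω g hg).mono hsub2).norm)
    have m2 := Pool.Agent.H44.CM.measurableSet_zero (F := ℂ) (isOpen_pbL (ball p ε) isOpen_ball)
      (f := fun z : V n => g (un z) * tU u v tf (un z) - f (un z) * tU u v tg (un z))
      ((cont_unL Ω _ hΨ).mono hsub2)
    exact m1.inter m2
  · intro h1
    apply hpos
    have h2 : (volume : Measure (V n)) (⋃ i : Fin n, ⋃ j : Fin n, {z | i ≠ j ∧ z ∈ pb Ω ∧ ‖f (un z)‖ = ‖g (un z)‖ ∧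
        g (un z) * tf i j (un z) - f (un z) * tg i j (un z) ≠ 0}) = 0 := by
      refine measure_iUnion_null fun i => measure_iUnion_null fun j => ?_
      by_cases hij : i = j
      · refine measure_mono_null ?_ measure_empty
        rintro z ⟨h3, _⟩
        exact h3 hij
      · refine measure_mono_null ?_ (tang_nullL Ω hΩ i j hij f g (tf i j) (tg i j) hf hf' hg hg' (hTf i j hij) (hTg i j hij))
        rintro z ⟨_, h3⟩
        exact h3
    refine measure_mono_null ?_ (measure_union_null h1 h2)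
    rintro z ⟨⟨hz, hE⟩, hun⟩
    by_cases h3 : ∀ i j, i ≠ j → g (un z) * tf i j (un z) - f (un z) * tg i j (un z) = 0
    · exact Or.inl ⟨⟨⟨hz.1, hun⟩, sub_eq_zero.mpr hE⟩, ⟨hz.1, hun⟩, tU_wr f g tf tg u v (un z) h3⟩
    · push Not at h3
      obtain ⟨i, j, hij, h4⟩ := h3
      exact Or.inr (Set.mem_iUnion.mpr ⟨i, Set.mem_iUnion.mpr ⟨j, hij, hz, hE, h4⟩⟩)
  · intro z hz hz0 hvz hin hθ
    have hζ := norm_un z hz0
    have hq : (inner ℂ v (un z) : ℂ) ≠ 0 := by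
      rw [un, inner_smul_right_eq_smul]
      exact smul_ne_zero (inv_ne_zero (norm_ne_zero_iff.mpr hz0)) hvz
    have hd := disc_eq Ω hΩ f g hf hf' hg hg' v u hv huv (tU u v tf) (tU u v tg) hUf hUg (un z) hζ hq
      (fun l hl => hεΩ (hin l hl)) (by
        intro h0
        apply hθ
        refine measure_mono_null ?_ h0
        rintro θ ⟨h1, h2⟩
        refine ⟨h1, ?_⟩
        rw [← un_rv v hv]
        exact h2.2.2)
    have htn : ‖((‖z‖ : ℝ) : ℂ)‖ < 1 := by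
      rw [Complex.norm_real, norm_norm]; exact mem_ball_zero_iff.mp hz
    have hd' := hd _ htn
    obtain ⟨ζ, hζd⟩ : ∃ ζ, ζ = un z := ⟨_, rfl⟩
    rw [← hζd] at hζ hq hd' ⊢
    obtain ⟨l, hld⟩ : ∃ l : ℂ, l = ((‖z‖ : ℝ) : ℂ) := ⟨_, rfl⟩
    have hlc : (starRingEnd ℂ) l = l := by rw [hld, Complex.conj_ofReal]
    rw [← hld] at htn hd' ⊢
    have hns := norm_rh_sq v hv l ζ
    rw [hζ, one_pow] at hns
    refine ⟨?_, ?_⟩
    · rw [mem_ball_zero_iff]
      have h2 : ‖l‖ ^ 2 < 1 := pow_lt_one₀ (norm_nonneg _) htn two_ne_zero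
      have h3 : 0 < ‖(inner ℂ v ζ : ℂ)‖ ^ 2 := by
        have := norm_pos_iff.mpr hq
        positivity
      have h4 : ‖rh v l ζ‖ ^ 2 < 1 := by nlinarith
      exact (sq_lt_one_iff₀ (norm_nonneg _)).mp h4
    · have e1 : ((‖rh v l ζ‖ ^ 2 : ℝ) : ℂ) = 1 + (l * l - 1) * ((inner ℂ v ζ : ℂ) * (starRingEnd ℂ) (inner ℂ v ζ : ℂ)) := by
        rw [hns]
        push_cast
        have e2 : ((‖l‖ : ℝ) : ℂ) ^ 2 = l * l := by
          rw [← Complex.ofReal_pow, ← Complex.normSq_eq_norm_sq, ← Complex.mul_conj, hlc]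
        have e3 : ((‖(inner ℂ v ζ : ℂ)‖ : ℝ) : ℂ) ^ 2 = (inner ℂ v ζ : ℂ) * (starRingEnd ℂ) (inner ℂ v ζ : ℂ) := by
          rw [← Complex.ofReal_pow, ← Complex.normSq_eq_norm_sq, ← Complex.mul_conj]
        rw [e2, e3]
      show th f g v u (rh v l ζ) = 0
      rw [th, e1, inner_v_rh v hv, inner_u_rh v u huv, map_mul, hlc]
      linear_combination (inner ℂ v ζ : ℂ) * hd'

end Pool.Agent.H44.LP
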