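import Pool.Agent.H44.LP.GiL

/-!
# [H44 LP HiL] Conclusion of the local theorem
-/

set_option autoImplicit false

namespace Pool.Agent.H44.LP

open MeasureTheory Metric Pool.Agent.H74.CB Pool.Agent.H44.SP Filter Topology

variable {n : ℕ}

theorem dw_step (f g : V n → ℂ) (hf' : DifferentiableOn ℂ f (ball (0 : V n) 1))
    (hg' : DifferentiableOn ℂ g (ball (0 : V n) 1)) (v u : V n) (hu : ‖u‖ = 1) (huv : (inner ℂ u v : ℂ) = 0)
    (hth : ∀ z ∈ ball (0 : V n) 1, th f g v u z = 0) (z : V n) (hz : z ∈ ball (0 : V n) 1) :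
    dw f g u z = 0 ∧ (inner ℂ v z : ℂ) * dw f g v z = 0 := by
  have hvu : (inner ℂ v u : ℂ) = 0 := by rw [← inner_conj_symm, huv, map_zero]
  have h0 : (0 : ℂ) ∈ {τ : ℂ | z + τ • u ∈ ball (0 : V n) 1} := by
    show z + (0 : ℂ) • u ∈ ball (0 : V n) 1
    rw [zero_smul, add_zero]; exact hz
  have hU := (isOpen_line z u).mem_nhds h0
  have hdw : ∀ w : V n, DifferentiableAt ℂ (fun τ : ℂ => dw f g w (z + τ • u)) 0 := by
    intro w
    have d1 := (hol_fderiv f hf' z u w).differentiableAt hU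
    have d2 := (hol_fderiv g hg' z u w).differentiableAt hU
    have d5 := (diff_line f hf' z u).differentiableAt hU
    have d6 := (diff_line g hg' z u).differentiableAt hU
    exact (d6.mul d1).sub (d5.mul d2)
  obtain ⟨c, hc⟩ : ∃ c : ℂ, c = inner ℂ u z := ⟨_, rfl⟩
  obtain ⟨q, hq⟩ : ∃ q : ℂ, q = inner ℂ v z := ⟨_, rfl⟩
  obtain ⟨k, hk⟩ : ∃ k : ℝ, k = 1 - ‖z‖ ^ 2 + ‖c‖ ^ 2 + ‖q‖ ^ 2 := ⟨_, rfl⟩
  have hz1 : ‖z‖ < 1 := mem_ball_zero_iff.mp hz
  have hk0 : (k : ℂ) ≠ 0 := by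
    have h2 : ‖z‖ ^ 2 < 1 := pow_lt_one₀ (norm_nonneg _) hz1 two_ne_zero
    have h3 : 0 < k := by rw [hk]; nlinarith [sq_nonneg ‖c‖, sq_nonneg ‖q‖]
    exact_mod_cast h3.ne'
  have hp : DifferentiableAt ℂ (fun τ : ℂ => q * dw f g v (z + τ • u) + (c + τ) * dw f g u (z + τ • u)) 0 := by
    have h1 : DifferentiableAt ℂ (fun τ : ℂ => c + τ) 0 := by fun_prop
    exact ((hdw v).const_mul q).add (h1.mul (hdw u))
  have hk2 : (k : ℂ) = 1 - ((‖z‖ ^ 2 : ℝ) : ℂ) + c * (starRingEnd ℂ) c + q * (starRingEnd ℂ) q := by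
    rw [Complex.mul_conj, Complex.mul_conj, Complex.normSq_eq_norm_sq, Complex.normSq_eq_norm_sq, hk]
    push_cast; ring
  have hev : ∀ᶠ τ in 𝓝 (0 : ℂ), (starRingEnd ℂ) (c + τ) *
      (q * dw f g v (z + τ • u) + (c + τ) * dw f g u (z + τ • u)) = (k : ℂ) * dw f g u (z + τ • u) := by
    filter_upwards [hU] with τ hτ
    have h1 := hth _ hτ
    have e1 : (inner ℂ v (z + τ • u) : ℂ) = q := by
      rw [inner_add_right, inner_smul_right, hvu, mul_zero, add_zero, hq]
    have e2 : (inner ℂ u (z + τ • u) : ℂ) = c + τ := by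
      rw [inner_add_right, inner_smul_right, inner_vv u hu, mul_one, hc]
    have e3 : ((‖z + τ • u‖ ^ 2 : ℝ) : ℂ) = ((‖z‖ ^ 2 : ℝ) : ℂ) + (τ * (starRingEnd ℂ) c + (starRingEnd ℂ) τ * c) +
        τ * (starRingEnd ℂ) τ := by
      have a1 : ∀ x : V n, ((‖x‖ ^ 2 : ℝ) : ℂ) = inner ℂ x x := by
        intro x; rw [inner_self_eq_norm_sq_to_K]; push_cast; rfl
      have a2 : (inner ℂ z u : ℂ) = (starRingEnd ℂ) c := by rw [← inner_conj_symm, hc]
      rw [a1, a1, inner_add_add_self, inner_smul_right, inner_smul_left, inner_smul_right, inner_smul_left,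
        inner_vv u hu, a2, ← hc]
      ring
    rw [th, e1, e2, e3] at h1
    rw [hk2]
    simp only [map_add] at h1 ⊢
    linear_combination h1
  have h2 := conj_trick _ _ hp (hdw u) c (k : ℂ) hev
  have h3 := hev.self_of_nhds
  simp only [zero_smul, add_zero] at h2 h3
  rw [h2, mul_zero] at h3
  have h4 : dw f g u z = 0 := (mul_eq_zero.mp h3.symm).resolve_left hk0
  refine ⟨h4, ?_⟩
  rw [h4, mul_zero, add_zero] at h2
  rw [← hq]; exact h2

theorem dw_add (f g : V n → ℂ) (w w' z : V n) : dw f g (w + w') z = dw f g w z + dw f g w' z := by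
  rw [dw, dw, dw, map_add, map_add]; ring

theorem dw_smul (f g : V n → ℂ) (c : ℂ) (w z : V n) : dw f g (c • w) z = c * dw f g w z := by
  rw [dw, dw, map_smul, map_smul, smul_eq_mul, smul_eq_mul]; ring

theorem dw_all (hn : 2 ≤ n) (f g : V n → ℂ) (hf' : DifferentiableOn ℂ f (ball (0 : V n) 1))
    (hg' : DifferentiableOn ℂ g (ball (0 : V n) 1)) (v : V n) (hv : ‖v‖ = 1)
    (hth : ∀ u : V n, ‖u‖ = 1 → (inner ℂ u v : ℂ) = 0 → ∀ z ∈ ball (0 : V n) 1, th f g v u z = 0)
    (w z : V n) (hz : z ∈ ball (0 : V n) 1) : dw f g w z = 0 := by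
  -- the direction v
  have hv0 : ∀ x ∈ ball (0 : V n) 1, (inner ℂ v x : ℂ) ≠ 0 → dw f g v x = 0 := by
    intro x hx hne
    have hvne : v ≠ 0 := by intro h; rw [h, norm_zero] at hv; exact zero_ne_one hv
    obtain ⟨u, hu, huv⟩ := exists_perp hn v hvne
    have h := (dw_step f g hf' hg' v u hu huv (hth u hu huv) x hx).2
    exact (mul_eq_zero.mp h).resolve_left hne
  have hv1 : dw f g v z = 0 := by
    by_cases hne : (inner ℂ v z : ℂ) = 0
    · have h0 : (0 : ℂ) ∈ {τ : ℂ | z + τ • v ∈ ball (0 : V n) 1} := by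
        show z + (0 : ℂ) • v ∈ ball (0 : V n) 1
        rw [zero_smul, add_zero]; exact hz
      have hU := (isOpen_line z v).mem_nhds h0
      have hc : ContinuousAt (fun τ : ℂ => dw f g v (z + τ • v)) 0 := by
        have h1 : ContinuousAt (dw f g v) (z + (0 : ℂ) • v) :=
          (cont_dw f g hf' hg' v).continuousAt (isOpen_ball.mem_nhds h0)
        have h2 : ContinuousAt (fun τ : ℂ => z + τ • v) 0 := by fun_prop
        exact ContinuousAt.comp (g := dw f g v) (f := fun τ : ℂ => z + τ • v) h1 h2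
      have h3 : Tendsto (fun τ : ℂ => dw f g v (z + τ • v)) (𝓝[≠] 0) (𝓝 (dw f g v (z + (0 : ℂ) • v))) :=
        hc.tendsto.mono_left nhdsWithin_le_nhds
      have h4 : Tendsto (fun τ : ℂ => dw f g v (z + τ • v)) (𝓝[≠] 0) (𝓝 0) := by
        refine tendsto_const_nhds.congr' ?_
        filter_upwards [mem_nhdsWithin_of_mem_nhds hU, self_mem_nhdsWithin] with τ hτ hτ0
        refine (hv0 _ hτ ?_).symm
        rw [inner_add_right, inner_smul_right, hne, inner_vv v hv, mul_one, zero_add]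
        exact hτ0
      have h5 := tendsto_nhds_unique h3 h4
      rwa [zero_smul, add_zero] at h5
    · exact hv0 z hz hne
  have hdec : w = (inner ℂ v w : ℂ) • v + (w - (inner ℂ v w : ℂ) • v) := by abel
  rw [hdec, dw_add, dw_smul, hv1, mul_zero, zero_add]
  obtain ⟨w', hw'⟩ : ∃ w', w' = w - (inner ℂ v w : ℂ) • v := ⟨_, rfl⟩
  rw [← hw']
  by_cases h0 : w' = 0
  · rw [h0]
    have := dw_smul f g 0 (0 : V n) z
    rwa [zero_smul, zero_mul] at this
  · have hperp : (inner ℂ w' v : ℂ) = 0 := by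
      have h1 : (inner ℂ v w' : ℂ) = 0 := by
        rw [hw', inner_sub_right, inner_smul_right, inner_vv v hv, mul_one, sub_self]
      rw [← inner_conj_symm, h1, map_zero]
    obtain ⟨u, hu⟩ : ∃ u, u = ((‖w'‖⁻¹ : ℝ) : ℂ) • w' := ⟨_, rfl⟩
    have hu1 : ‖u‖ = 1 := by
      rw [hu, norm_smul, Complex.norm_real, norm_inv, norm_norm, inv_mul_cancel₀ (norm_ne_zero_iff.mpr h0)]
    have huv : (inner ℂ u v : ℂ) = 0 := by rw [hu, inner_smul_left, hperp, mul_zero]
    have h2 := (dw_step f g hf' hg' v u hu1 huv (hth u hu1 huv) z hz).1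
    rw [hu, dw_smul] at h2
    refine (mul_eq_zero.mp h2).resolve_left ?_
    exact_mod_cast inv_ne_zero (norm_ne_zero_iff.mpr h0)

theorem mainL (hn : 2 ≤ n) (Ω : Set (V n)) (hΩ : IsOpen Ω) (f g : V n → ℂ)
    (hf : ContinuousOn f (closedBall (0 : V n) 1 ∩ Ω)) (hf' : DifferentiableOn ℂ f (ball (0 : V n) 1))
    (hg : ContinuousOn g (closedBall (0 : V n) 1 ∩ Ω)) (hg' : DifferentiableOn ℂ g (ball (0 : V n) 1))
    (hTf : ∀ i j, i ≠ j → ∃ tf, TgL Ω i j f tf) (hTg : ∀ i j, i ≠ j → ∃ tg, TgL Ω i j g tg)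
    (hE : (volume : Measure (V n)).toSphere {ζ : sphere (0 : V n) 1 | (ζ : V n) ∈ Ω ∧ ‖f ζ‖ = ‖g ζ‖} ≠ 0) :
    ∃ c : ℂ, ∀ z ∈ ball (0 : V n) 1, f z = c * g z := by
  have hpos : (volume : Measure (V n)) {z | z ∈ pb Ω ∧ ‖f (un z)‖ = ‖g (un z)‖} ≠ 0 := by
    have hA : MeasurableSet {ζ : sphere (0 : V n) 1 | (ζ : V n) ∈ Ω ∧ ‖f ζ‖ = ‖g ζ‖} := by
      have hU : IsOpen {ζ : sphere (0 : V n) 1 | (ζ : V n) ∈ Ω} := hΩ.preimage continuous_subtype_val
      have hcl : ∀ ζ ∈ {ζ : sphere (0 : V n) 1 | (ζ : V n) ∈ Ω}, (ζ : V n) ∈ closedBall (0 : V n) 1 ∩ Ω :=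
        fun ζ hζ => ⟨sphere_subset_closedBall ζ.2, hζ⟩
      have c1 : ContinuousOn (fun ζ : sphere (0 : V n) 1 => ‖f ζ‖ - ‖g ζ‖) {ζ : sphere (0 : V n) 1 | (ζ : V n) ∈ Ω} :=
        (hf.comp (f := fun ζ : sphere (0 : V n) 1 => (ζ : V n)) continuous_subtype_val.continuousOn hcl).norm.sub
        (hg.comp (f := fun ζ : sphere (0 : V n) 1 => (ζ : V n)) continuous_subtype_val.continuousOn hcl).norm
      have m := Pool.Agent.H44.CM.measurableSet_zero (F := ℝ) hU c1
      have e : {ζ : sphere (0 : V n) 1 | (ζ : V n) ∈ Ω ∧ ‖f ζ‖ = ‖g ζ‖} =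
          {ζ ∈ {ζ : sphere (0 : V n) 1 | (ζ : V n) ∈ Ω} | ‖f ζ‖ - ‖g ζ‖ = 0} := by
        ext ζ
        constructor
        · rintro ⟨h1, h2⟩; exact ⟨h1, sub_eq_zero.mpr h2⟩
        · rintro ⟨h1, h2⟩; exact ⟨h1, sub_eq_zero.mp h2⟩
      rw [e]; exact m
    obtain ⟨_, hM⟩ := cone_union _ hA hE
      (fun _ => {z | z ∈ pb Ω ∧ ‖f (un z)‖ = ‖g (un z)‖}) (by
        intro ζ hζ t ht0 ht1
        refine ⟨0, ?_⟩
        have hζ1 : ‖(ζ : V n)‖ = 1 := mem_sphere_zero_iff_norm.mp ζ.2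
        have hnt : ‖t • (ζ : V n)‖ = t := by
          rw [norm_smul, hζ1, mul_one, Real.norm_eq_abs, abs_of_pos ht0]
        have hun : un (t • (ζ : V n)) = ζ := by
          rw [un, hnt, smul_smul, inv_mul_cancel₀ ht0.ne', one_smul]
        refine ⟨⟨⟨?_, ?_⟩, ?_⟩, ?_⟩
        · rw [mem_ball_zero_iff, hnt]; exact ht1
        · intro h
          have h' : t • (ζ : V n) = 0 := h
          rw [h', norm_zero] at hnt
          exact ht0.ne hnt
        · rw [hun]; exact hζ.1
        · rw [hun]; exact hζ.2)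
    exact hM
  obtain ⟨p, hpΩ, hp1, hp⟩ := exists_p Ω _ (fun z hz => hz.1) hpos
  obtain ⟨ε, hε, hεΩ⟩ : ∃ ε > 0, ball p (3 * ε) ⊆ Ω := by
    obtain ⟨r, hr, h⟩ := Metric.isOpen_iff.mp hΩ _ hpΩ
    refine ⟨r / 3, by positivity, ?_⟩
    have : 3 * (r / 3) = r := by ring
    rw [this]; exact h
  have hp0 : p ≠ 0 := by intro h; rw [h, norm_zero] at hp1; exact zero_ne_one hp1
  obtain ⟨v, hv, hvp⟩ := exists_perp hn p hp0
  have hpp := hp ε hε
  by_cases hg0 : ∀ z ∈ ball (0 : V n) 1, g z = 0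
  · -- g = 0
    have hg1 : ∀ z ∈ closedBall (0 : V n) 1 ∩ Ω, g z = 0 := by
      intro z hz
      have h1 : Set.EqOn g (fun _ => 0) (ball (0 : V n) 1 ∩ Ω) := fun x hx => hg0 x hx.1
      refine h1.of_subset_closure hg continuousOn_const (Set.inter_subset_inter_left _ ball_subset_closedBall) ?_ hz
      intro x hx
      have h2 : x ∈ closure (ball (0 : V n) 1) := by rw [closure_ball _ one_ne_zero]; exact hx.1
      rw [Set.inter_comm]
      exact hΩ.inter_closure ⟨hx.2, h2⟩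
    have hsub1 : ball p ε ⊆ Ω := (ball_subset_ball (by linarith)).trans hεΩ
    have hsub2 : pb (ball p ε) ⊆ pb Ω := fun z hz => ⟨hz.1, hsub1 hz.2⟩
    have hfz : ∀ z ∈ ball (0 : V n) 1, f z = 0 := by
      refine all_zero (by omega) _ hf'.continuousOn (fun a b t ht => ana_f f hf' a b t ht) ?_
      refine sweep v hv p hvp ε {z | z ∈ pb (ball p ε) ∧ f (un z) = 0}
        (Pool.Agent.H44.CM.measurableSet_zero (F := ℂ) (isOpen_pbL (ball p ε) isOpen_ball)
          (f := fun z : V n => f (un z)) ((cont_unL Ω f hf).mono hsub2)) ?_ (fun z hz => hz.1) _ ?_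
      · intro h1
        apply hpp
        refine measure_mono_null ?_ h1
        rintro z ⟨⟨hz, hE⟩, hun⟩
        refine ⟨⟨hz.1, hun⟩, ?_⟩
        have : un z ∈ closedBall (0 : V n) 1 ∩ Ω := ⟨by rw [mem_closedBall_zero_iff, norm_un z hz.1.2], hz.2⟩
        rw [hg1 _ this, norm_zero] at hE
        exact norm_eq_zero.mp hE
      · intro z hz hz0 hvz hin hθ
        have hζ := norm_un z hz0
        have hq : (inner ℂ v (un z) : ℂ) ≠ 0 := by
          rw [un, inner_smul_right_eq_smul]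
          exact smul_ne_zero (inv_ne_zero (norm_ne_zero_iff.mpr hz0)) hvz
        have hq0 : 0 < ‖(inner ℂ v (un z) : ℂ)‖ := norm_pos_iff.mpr hq
        have hzb : ∀ l : ℂ, ‖l‖ < 1 → rh v l (un z) ∈ ball (0 : V n) 1 := by
          intro l hl
          rw [mem_ball_zero_iff]
          have h1 := norm_rh_sq v hv l (un z)
          rw [hζ] at h1
          have h2 : ‖l‖ ^ 2 < 1 := pow_lt_one₀ (norm_nonneg _) hl two_ne_zero
          have h3 : 0 < ‖(inner ℂ v (un z) : ℂ)‖ ^ 2 := by positivity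
          have h4 : ‖rh v l (un z)‖ ^ 2 < 1 := by nlinarith
          exact (sq_lt_one_iff₀ (norm_nonneg _)).mp h4
        have hzc : ∀ l : ℂ, ‖l‖ ≤ 1 → rh v l (un z) ∈ closedBall (0 : V n) 1 := by
          intro l hl
          rw [mem_closedBall_zero_iff]
          have h1 := norm_rh_sq v hv l (un z)
          rw [hζ] at h1
          have h2 : ‖l‖ ^ 2 ≤ 1 := pow_le_one₀ (norm_nonneg _) hl
          have h3 : 0 ≤ ‖(inner ℂ v (un z) : ℂ)‖ ^ 2 := by positivity
          have h4 : ‖rh v l (un z)‖ ^ 2 ≤ 1 := by nlinarith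
          exact (sq_le_one_iff₀ (norm_nonneg _)).mp h4
        have hF : DifferentiableOn ℂ (fun l : ℂ => f (rh v l (un z))) (ball (0 : ℂ) 1) := by
          have hU : ball (0 : ℂ) 1 ⊆ {τ : ℂ | (un z - pj v (un z)) + τ • ((inner ℂ v (un z) : ℂ) • v) ∈ ball (0 : V n) 1} := by
            intro l hl
            show (un z - pj v (un z)) + l • ((inner ℂ v (un z) : ℂ) • v) ∈ ball (0 : V n) 1
            rw [← rh_line]
            exact hzb l (mem_ball_zero_iff.mp hl)
          have q5 := (diff_line f hf' (un z - pj v (un z)) ((inner ℂ v (un z) : ℂ) • v)).mono hU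
          simp only [← rh_line] at q5
          exact q5
        have hM : ContinuousOn (fun l : ℂ => ‖f (rh v l (un z))‖) (closedBall (0 : ℂ) 1) := by
          refine (hf.comp (rh_cont_l v (un z)).continuousOn ?_).norm
          intro l hl
          have hl' := mem_closedBall_zero_iff.mp hl
          exact ⟨hzc l hl', hεΩ (hin l hl')⟩
        have hu := uniq _ hF _ hM (fun l hl => mul_le_of_le_one_left (norm_nonneg _) hl.le) (by
          intro h0
          apply hθ
          refine measure_mono_null ?_ h0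
          rintro θ ⟨h1, h2⟩
          refine ⟨h1, ?_⟩
          have h3 := h2.2
          rw [un_rv v hv] at h3
          show ‖f (rh v (Complex.exp ((θ : ℂ) * Complex.I)) (un z))‖ = 0
          have h4 : f (rh v (Complex.exp ((θ : ℂ) * Complex.I)) (un z)) = 0 := h3
          rw [h4, norm_zero])
        have htn : ‖((‖z‖ : ℝ) : ℂ)‖ < 1 := by
          rw [Complex.norm_real, norm_norm]; exact mem_ball_zero_iff.mp hz
        exact ⟨hzb _ htn, hu _ (mem_ball_zero_iff.mpr htn)⟩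
    exact ⟨0, fun z hz => by rw [hfz z hz, zero_mul]⟩
  · push Not at hg0
    obtain ⟨z0, hz0, hgz0⟩ := hg0
    choose! tf htf using hTf
    choose! tg htg using hTg
    have hth : ∀ u : V n, ‖u‖ = 1 → (inner ℂ u v : ℂ) = 0 → ∀ z ∈ ball (0 : V n) 1, th f g v u z = 0 :=
      fun u _ huv => th_pos hn Ω hΩ f g hf hf' hg hg' tf tg htf htg v u hv huv p hvp ε hε hεΩ hpp
    have hdw := dw_all hn f g hf' hg' v hv hth
    -- a ball around z0 where g is not zero
    have hopen : IsOpen (ball (0 : V n) 1 ∩ g ⁻¹' {0}ᶜ) :=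
      hg'.continuousOn.isOpen_inter_preimage isOpen_ball isOpen_compl_singleton
    obtain ⟨η, hη, hsub⟩ := Metric.isOpen_iff.mp hopen z0 ⟨hz0, hgz0⟩
    have hder : ∀ w ∈ ball z0 η, HasFDerivAt (fun z => f z * (g z)⁻¹) (0 : V n →L[ℂ] ℂ) w := by
      intro w hw
      have hw' := hsub hw
      have hne : g w ≠ 0 := hw'.2
      have a1 := (hf'.differentiableAt (isOpen_ball.mem_nhds hw'.1)).hasFDerivAt
      have a2 := (hg'.differentiableAt (isOpen_ball.mem_nhds hw'.1)).hasFDerivAt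
      have a3 := a1.mul ((hasDerivAt_inv hne).comp_hasFDerivAt w a2)
      refine a3.congr_fderiv ?_
      ext x
      have a4 := hdw x w hw'.1
      rw [dw] at a4
      simp only [ContinuousLinearMap.add_apply, ContinuousLinearMap.smul_apply, smul_eq_mul,
        ContinuousLinearMap.zero_apply, Function.comp_apply]
      field_simp
      linear_combination a4
    have hconst : ∀ z ∈ ball z0 η, f z / g z = f z0 / g z0 := by
      intro z hz
      rw [div_eq_mul_inv, div_eq_mul_inv]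
      exact isOpen_ball.is_const_of_fderiv_eq_zero (𝕜 := ℂ) (f := fun z => f z * (g z)⁻¹)
        (convex_ball z0 η).isPreconnected (fun w hw => (hder w hw).differentiableAt.differentiableWithinAt)
        (fun w hw => (hder w hw).fderiv) hz (mem_ball_self hη)
    have hall := all_zero (by omega) (fun z => f z - f z0 / g z0 * g z)
      (hf'.continuousOn.sub (continuousOn_const.mul hg'.continuousOn))
      (fun a v t ht => (ana_f f hf' a v t ht).sub (analyticAt_const.mul (ana_f g hg' a v t ht))) (by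
        intro h
        have h1 : (volume : Measure (V n)) (ball z0 η) = 0 := by
          refine measure_mono_null ?_ h
          intro z hz
          refine ⟨(hsub hz).1, ?_⟩
          show f z - f z0 / g z0 * g z = 0
          rw [← hconst z hz, div_mul_cancel₀ _ (hsub hz).2, sub_self]
        exact (measure_ball_pos volume z0 hη).ne' h1)
    exact ⟨f z0 / g z0, fun z hz => sub_eq_zero.mp (hall z hz)⟩

end Pool.Agent.H44.LP
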